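import Pool.Agent.Helper58.Gomoku.YFit
import Pool.Agent.Helper36.Gomoku.YGet

set_option autoImplicit false

namespace Pool.Agent.Gomoku

open Finset

/-! # Module Y3: null items, the evaluator, the table -/

/-- stones of the item among the black stones -/
theorem Rep.dec_sub {off : Cell} {s : St} {b F A X : ℕ} (hR : Rep off s b F A) (h : Sub X b) :
    dec off X ⊆ dec off s.b := by
  intro c hc
  obtain ⟨i, hi, hXi, rfl⟩ := mem_dec.1 hc
  have h1 := h i hXi
  rw [hR.b, tb_lor, XHI_low i (by omega), Bool.false_or] at h1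
  exact (cellOf_mem_dec hi).2 h1

/-- the white stones, from `F` and `b` -/
theorem Rep.wEq {off : Cell} {s : St} {b F A : ℕ} (hR : Rep off s b F A) :
    Nat.xor (Nat.xor F XNIM) (Nat.xor b XHI) = s.w := by
  apply Nat.eq_of_testBit_eq
  intro i
  rw [tb_xor, tb_xor, tb_xor, hR.F, hR.b, tb_lor, tb_lor, tb_lor]
  cases hb : s.b.testBit i
  · cases hw : s.w.testBit i
    · cases XNIM.testBit i <;> cases XHI.testBit i <;> rfl
    · have hin := hR.inv.wi i hw
      rw [inner_xnim hin, XHI_low i (by have := inner_lt hin; omega)]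
      rfl
  · have hin := hR.inv.bi i hb
    have hw : s.w.testBit i = false := by
      cases hw : s.w.testBit i
      · rfl
      · exact absurd ((cellOf_mem_dec (off := off) (inner_lt hin)).2 hw)
          (Finset.disjoint_left.1 hR.inv.disj ((cellOf_mem_dec (inner_lt hin)).2 hb))
    rw [hw, inner_xnim hin, XHI_low i (by have := inner_lt hin; omega)]
    rfl

/-! ### Null items -/

theorem yN_succ {gt gc : ℕ → Item} {fx b F w A m N U : ℕ} {k : ℕ → ℕ → RX} :
    yN gt gc fx b F w A k (m + 1) N U =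
      Bool.rec (motive := fun _ => RX)
        (Item.rec (motive := fun _ => RX)
          (fun B W K _ _ _ mx my =>
            (fun dx dy =>
              (fun sh =>
                Bool.rec (motive := fun _ => RX) RX.bad
                  (yN gt gc fx b F w A k m (Nat.shiftRight N 31) (Nat.land U (Nat.shiftLeft K sh)))
                  (Bool.and (Bool.and (Nat.ble dx mx) (Nat.ble dy my))
                    (Bool.and (Nat.beq (Nat.lor (Nat.shiftLeft B sh) b) b)
                      (Nat.beq (Nat.lor w (Nat.shiftLeft W sh)) (Nat.shiftLeft W sh)))))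
                (Nat.add dx (Nat.mul 32 dy)))
              (Nat.mod (Nat.shiftRight N 21) 32) (Nat.mod (Nat.shiftRight N 26) 32))
          (gc (Nat.mod (Nat.shiftRight N 1) 1048576)))
        (yGet gt fx (Nat.shiftRight N 1) fun N1 B W K C1 =>
          yFit b F w A B W K C1 N1 fun N2 E Q =>
            yN gt gc fx b F w A k m N2 (Nat.land U (Nat.lor (Nat.lor K Q) (xCells0 E))))
        (Nat.beq (Nat.mod N 2) 0) := rfl

theorem covQ_of_valid2 {off : Cell} {s : St} {b F A : ℕ} (hR : Rep off s b F A) {it : Item}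
    (hv : ItemValid2 it) {dx dy : ℕ} (hx : dx ≤ it.mx) (hy : dy ≤ it.my)
    (hB : Sub (Nat.shiftLeft it.B (Nat.add dx (Nat.mul 32 dy))) b)
    (hW : Nat.lor s.w (Nat.shiftLeft it.W (Nat.add dx (Nat.mul 32 dy))) =
      Nat.shiftLeft it.W (Nat.add dx (Nat.mul 32 dy))) :
    ∃ M, CovQ off s M (Nat.shiftLeft it.K (Nat.add dx (Nat.mul 32 dy))) := by
  obtain ⟨M, hM⟩ := (hv.2.2 off dx dy hx hy).plain
  refine ⟨M, fun y hyb hyw hyK => ?_⟩
  have hW' : dec off s.w ⊆ dec off (Nat.shiftLeft it.W (Nat.add dx (Nat.mul 32 dy))) :=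
    dec_sub_of_lor hW
  have hsub : insert y (dec off s.w) \ (it.data off dx dy).W ⊆ {y} := by
    intro c hc
    rw [Finset.mem_sdiff, Finset.mem_insert] at hc
    rw [Finset.mem_singleton]
    rcases hc.1 with h | h
    · exact h
    · exact absurd (hW' h) hc.2
  refine hM _ _ (hR.dec_sub hB) ?_ ?_ ?_
  · rw [Finset.disjoint_insert_right]; exact ⟨hyb, hR.inv.disj⟩
  · refine Finset.disjoint_of_subset_left hsub ?_
    rw [Finset.disjoint_singleton_left]
    exact hyK
  · intro L _ _
    refine (Finset.card_le_card (Finset.inter_subset_right.trans hsub)).trans ?_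
    rw [Finset.card_singleton]
    exact capG_ge_one hv.1 L

/-- general induction over the null items -/
theorem yN_gen {off : Cell} {gt gc : ℕ → Item} (hgt : GoodX gt) (hgc : ∀ i, ItemValid2 (gc i))
    {fx : ℕ} {s : St} {b F A : ℕ} (hR : Rep off s b F A) {P : ℕ → Prop}
    (hP : ∀ U O, P U → (∃ M, CovQ off s M O) → P (Nat.land U O)) {k : ℕ → ℕ → RX} (m : ℕ)
    {N U N' K' G' : ℕ} (h : yN gt gc fx b F s.w A k m N U = RX.ok N' K' G') (hU : P U) :
    ∃ N1 U1, k N1 U1 = RX.ok N' K' G' ∧ P U1 := by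
  induction m generalizing N U with
  | zero => exact ⟨N, U, h, hU⟩
  | succ m ih =>
    rw [yN_succ] at h
    cases hb : Nat.beq (Nat.mod N 2) 0
    · rw [hb] at h
      have hv := hgc (Nat.mod (Nat.shiftRight N 1) 1048576)
      generalize gc (Nat.mod (Nat.shiftRight N 1) 1048576) = it at h hv
      obtain ⟨B, W, K, C1, C2, g, mx, my⟩ := it
      obtain ⟨hc, hk⟩ := rec_bad h
      have hc' : ((Nat.ble (Nat.mod (Nat.shiftRight N 21) 32) mx &&
        Nat.ble (Nat.mod (Nat.shiftRight N 26) 32) my) &&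
        (Nat.beq (Nat.lor (Nat.shiftLeft B (Nat.add (Nat.mod (Nat.shiftRight N 21) 32)
            (Nat.mul 32 (Nat.mod (Nat.shiftRight N 26) 32)))) b) b &&
          Nat.beq (Nat.lor s.w (Nat.shiftLeft W (Nat.add (Nat.mod (Nat.shiftRight N 21) 32)
            (Nat.mul 32 (Nat.mod (Nat.shiftRight N 26) 32)))))
            (Nat.shiftLeft W (Nat.add (Nat.mod (Nat.shiftRight N 21) 32)
            (Nat.mul 32 (Nat.mod (Nat.shiftRight N 26) 32)))))) = true := hc
      simp only [Bool.and_eq_true] at hc'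
      obtain ⟨⟨c1, c2⟩, c3, c4⟩ := hc'
      have c3 := eq_of_beq c3
      have c4 := eq_of_beq c4
      refine ih hk (hP _ _ hU ?_)
      refine covQ_of_valid2 hR hv (Nat.le_of_ble_eq_true c1) (Nat.le_of_ble_eq_true c2) ?_ c4
      intro i hi
      rw [← c3, tb_lor, hi]; rfl
    · rw [hb] at h
      obtain ⟨N1, B, W, K, C1, h1, hV⟩ := yGet_spec hgt h
      obtain ⟨N2, E, Q, T, h2, -, h3⟩ := yFit_spec hR h1
      refine ih h2 (hP _ _ hU ?_)
      obtain ⟨M, hM⟩ := hV off T.dep
      refine ⟨M, fun y hyb hyw hyO => ?_⟩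
      rw [dec_lor, dec_lor, Finset.mem_union, Finset.mem_union, not_or, not_or] at hyO
      exact hM T (le_refl _) _ _ (h3 y hyb hyw hyO.1.1 hyO.1.2 hyO.2)

/-- null items -/
theorem yN_spec {off : Cell} {gt gc : ℕ → Item} (hgt : GoodX gt) (hgc : ∀ i, ItemValid2 (gc i))
    {fx : ℕ} {s : St} {b F A : ℕ} (hR : Rep off s b F A) {k : ℕ → ℕ → RX} (m : ℕ)
    {N U N' K' G' : ℕ} (h : yN gt gc fx b F s.w A k m N U = RX.ok N' K' G')
    (hU : ∃ M, CovQ off s M U) :
    ∃ N1 U1, k N1 U1 = RX.ok N' K' G' ∧ ∃ M, CovQ off s M U1 := by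
  refine yN_gen hgt hgc hR ?_ m h hU
  rintro U O ⟨M1, h1⟩ ⟨M2, h2⟩
  exact ⟨_, h1.land h2⟩

/-- either covered outside of `U`, or no null item at all -/
def CovF (off : Cell) (s : St) (U : ℕ) : Prop :=
  (∃ M, CovQ off s M U) ∨ ∀ i, i < 1024 → U.testBit i = true

theorem CovF.land {off : Cell} {s : St} {U O : ℕ} (h : CovF off s U) (hO : ∃ M, CovQ off s M O) :
    CovF off s (Nat.land U O) := by
  obtain ⟨M, hM⟩ := hO
  rcases h with ⟨M1, h1⟩ | h1
  · exact Or.inl ⟨_, h1.land hM⟩
  · refine Or.inl ⟨M, fun y hyb hyw hyU => hM y hyb hyw fun hy => hyU ?_⟩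
    obtain ⟨i, hi, hOi, rfl⟩ := mem_dec.1 hy
    rw [cellOf_mem_dec hi, tb_land, h1 i hi, hOi]
    rfl

/-! ### Lines of fours -/

theorem Fours.winY {off : Cell} {s s1 : St} {C : ℕ} (hI : Inv off s) (h : Fours s s1 C) {M : ℕ}
    (hW : Win M (dec off s1.b) (dec off s1.w)) : ∃ M', Win M' (dec off s.b) (dec off s.w) := by
  induction h with
  | nil s C => exact ⟨M, hW⟩
  | cons s s' C c t k hc ht hfc hft h5 h4 h1 h2 h3 hn h ih =>
    obtain ⟨hin, hb, hw⟩ := isFree_spec hc hfc
    obtain ⟨htin, htb, htw⟩ := isFree_spec ht hft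
    obtain ⟨hl1, hl2⟩ := fiveOK_spec h5 off
    have hI1 : Inv off (s.addB c) := hI.addB hin hw
    have hI2 : Inv off ((s.addB c).addW t) := hI1.addW htin htb
    obtain ⟨N, hN⟩ := ih hI2 hW
    have e1 : dec off ((s.addB c).addW t).w = insert (cellOf off t) (dec off s.w) := dec_insert ht
    have e2 : dec off ((s.addB c).addW t).b = dec off (s.addB c).b := rfl
    have e3 : insert (cellOf off c) (dec off s.b) = dec off (s.addB c).b := (dec_insert hc).symm
    rw [e1, e2] at hN
    refine ⟨max N 1 + 1, Win.of_and (b := cellOf off c) ?_ ?_ ?_⟩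
    · rw [cellOf_mem_dec hc, hb]; simp
    · rw [cellOf_mem_dec hc, hw]; simp
    · intro y hy1 hy2
      rw [e3] at hy1 ⊢
      refine ⟨notHasFive_insertQ hI1 h4 hy1, ?_⟩
      by_cases hyt : y = cellOf off t
      · rw [hyt]
        exact hN.mono (le_max_left _ _)
      · refine Win.mono (le_max_right _ _) (Win.of_five (b := cellOf off t) ?_ ?_ ?_)
        · rw [cellOf_mem_dec ht, htb]; simp
        · rw [Finset.mem_insert, not_or]
          refine ⟨fun h => hyt h.symm, ?_⟩
          have htw' : s.w.testBit t = false := htw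
          rw [cellOf_mem_dec ht, htw']; simp
        · refine ⟨_, hl1, ?_⟩
          rw [← dec_insert ht]
          exact hl2

theorem Five.winY {off : Cell} {s : St} {c : ℕ} (h : Five s c) :
    Win 1 (dec off s.b) (dec off s.w) := by
  obtain ⟨hclt, hf, k, h5⟩ := h
  obtain ⟨hin, hb, hw⟩ := isFree_spec hclt hf
  obtain ⟨hl1, hl2⟩ := fiveOK_spec h5 off
  refine Win.of_five (b := cellOf off c) ?_ ?_ ?_
  · rw [cellOf_mem_dec hclt, hb]; simp
  · rw [cellOf_mem_dec hclt, hw]; simp
  · refine ⟨_, hl1, ?_⟩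
    rw [← dec_insert hclt]
    exact hl2

/-- a line as null item -/
theorem covQ_line {off : Cell} {s s1 : St} {C c : ℕ} (hI : Inv off s) (h : Fours s s1 C)
    (hf : Five s1 c) : ∃ M, CovQ off s M (Nat.lor (Nat.lor (Nat.lor s1.b s1.w) (Nat.shiftLeft 1 c))
      (xCells0 (Nat.shiftRight C 12420))) := by
  obtain ⟨E3, hE3, -, hV⟩ := h.line hI hf
  have hV := hV (Nat.lor (Nat.lor (Nat.lor s1.b s1.w) (Nat.shiftLeft 1 c))
    (xCells0 (Nat.shiftRight C 12420))) (sub_lor_left _ _)
    ((hE3.cells0.trans lane3_cells).trans (sub_lor_right _ _))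
  exact covQ_self hI hV fun L => one_le_capOf3

theorem covQ_nullLn {off : Cell} {s : St} {K G O : ℕ} (hI : Inv off s) (h : NullLn s K G O) :
    ∃ M, CovQ off s M O := by
  obtain ⟨s1, C, c, hfo, hfi, -, -, -, rfl⟩ := h
  exact covQ_line hI hfo hfi

theorem covQ_nullOp {off : Cell} {s : St} {b F A K O : ℕ} (hR : Rep off s b F A) (h4 : s.a4 = 0)
    (h : NullOp s K O) : ∃ M, CovQ off s M (Nat.lor O (xCells0 (Nat.shiftRight A 12420))) := by
  obtain ⟨c, t, u, hop, rfl, -⟩ := h
  obtain ⟨s1, hfo, hfi, heq⟩ := hop.fours hR h4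
  obtain ⟨M, hM⟩ := covQ_line hR.inv hfo hfi
  rw [heq] at hM
  refine ⟨M, fun y hyb hyw hyO => hM y hyb hyw fun hy => hyO ?_⟩
  rw [dec_lor, dec_lor, dec_lor, Finset.mem_union, Finset.mem_union, Finset.mem_union] at hy
  rw [dec_lor, Finset.mem_union]
  rcases hy with ((hy | hy) | hy) | hy
  · exact absurd hy hyb
  · exact absurd hy hyw
  · exact Or.inl hy
  · exact Or.inr hy

theorem covF_of_bits {off : Cell} {s : St} {U : ℕ}
    (h1 : ∀ i, i < 1024 → U.testBit i = false → ∃ O M, CovQ off s M O ∧ O.testBit i = false)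
    (h2 : (∃ O M, CovQ off s M O) ∨ ∀ i, i < 1024 → U.testBit i = true) : CovF off s U := by
  rcases h2 with ⟨O0, M0, h0⟩ | h2
  · left
    have key : ∀ i, ∃ M, i < 1024 → U.testBit i = false → cellOf off i ∉ dec off s.b →
        cellOf off i ∉ dec off s.w → Win M (dec off s.b) (insert (cellOf off i) (dec off s.w)) := by
      intro i
      by_cases hi : i < 1024 ∧ U.testBit i = false
      · obtain ⟨O, M, hM, hO⟩ := h1 i hi.1 hi.2
        refine ⟨M, fun _ _ hb hw => hM _ hb hw ?_⟩
        rw [cellOf_mem_dec hi.1, hO]; simp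
      · exact ⟨0, fun a b => absurd ⟨a, b⟩ hi⟩
    choose f hf using key
    refine ⟨max M0 ((Finset.range 1024).sup f), fun y hyb hyw hyU => ?_⟩
    by_cases hy : OnBoard off y
    · obtain ⟨i, hi, rfl⟩ := hy
      refine Win.mono ?_ (hf i hi ?_ hyb hyw)
      · exact (Finset.le_sup (Finset.mem_range.2 hi)).trans (le_max_right _ _)
      · rw [cellOf_mem_dec hi] at hyU
        simpa using hyU
    · exact (h0 y hyb hyw fun h => hy (onBoard_of_mem h)).mono (le_max_left _ _)
  · exact Or.inr h2

/-! ### The evaluator -/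

theorem evR_soundY {off : Cell} {f : ℕ → ℕ → ℕ → ℕ → ℕ → ℕ → RX}
    (hf : ∀ (N b F A K G N' K' G' : ℕ) (s : St), Rep off s b F A →
      f N b F A K G = RX.ok N' K' G' → ∃ M, Win M (dec off s.b) (dec off s.w))
    {s : St} {b F A : ℕ} (h : Rep off s b F A) (U : ℕ) :
    ∀ (m N Y K G N' K' G' : ℕ), Sub XNIM Y →
      evR f b F A U m N Y K G = RX.ok N' K' G' →
      ∃ (I : List St) (M : ℕ),
        (∀ s' ∈ I, s'.b = s.b ∧ Sub s.w s'.w ∧ Win M (dec off s'.b) (dec off s'.w)) ∧
        ∀ i, U.testBit i = true → XNIM.testBit i = false ∧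
          (Y.testBit i = true ∨ ∃ s' ∈ I, s'.b.testBit i = true ∨ s'.w.testBit i = true) := by
  intro m
  induction m with
  | zero =>
    intro N Y K G N' K' G' hY hev
    rw [evR_zero] at hev
    cases hb : Nat.beq (Nat.lor U (Nat.xor Y XNIM)) (Nat.xor Y XNIM)
    · rw [hb] at hev; simp at hev
    · refine ⟨[], 0, by simp, ?_⟩
      intro i hi
      have h1 := eq_of_beq hb
      have h2 : (Nat.xor Y XNIM).testBit i = true := by
        rw [← h1, tb_lor, hi]; rfl
      rw [tb_xor2] at h2
      rcases Bool.eq_false_or_eq_true (XNIM.testBit i) with h3 | h3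
      · rw [h3, hY i h3] at h2
        simp at h2
      · rw [h3, Bool.xor_false] at h2
        exact ⟨h3, Or.inl h2⟩
  | succ m ih =>
    intro N Y K G N' K' G' hY hev
    rw [evR_succ] at hev
    obtain ⟨N1, F1, A1, Z1, hk, hZ⟩ := evW_spec _ hev
    cases hb : Nat.beq Z1 0
    · rw [hb] at hk; simp at hk
    · rw [hb] at hk
      obtain ⟨-, hrep⟩ := hZ (eq_of_beq hb)
      obtain ⟨s1, hs1, hb1, hw1⟩ := hrep off s b h
      cases hfe : f N1 b F1 A1 K G with
      | bad => rw [hfe] at hk; simp at hk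
      | ok N2 K2 G2 =>
        rw [hfe] at hk
        simp only at hk
        obtain ⟨M1, hM1⟩ := hf _ _ _ _ _ _ _ _ _ s1 hs1 hfe
        obtain ⟨I, M, i3, i4⟩ := ih _ _ _ _ _ _ _ (hY.trans (sub_lor_left _ _)) hk
        refine ⟨s1 :: I, max M M1, ?_, ?_⟩
        · intro s' hs'
          rcases List.mem_cons.1 hs' with rfl | hs'
          · exact ⟨hb1, hw1, hM1.mono (le_max_right _ _)⟩
          · obtain ⟨j1, j2, j3⟩ := i3 s' hs'
            exact ⟨j1, j2, j3.mono (le_max_left _ _)⟩
        · intro i hi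
          obtain ⟨j1, j2⟩ := i4 i hi
          refine ⟨j1, ?_⟩
          rcases j2 with j2 | ⟨s', hs', j2⟩
          · rw [tb_lor, Bool.or_eq_true] at j2
            rcases j2 with j2 | j2
            · exact Or.inl j2
            · right
              refine ⟨s1, List.mem_cons_self, ?_⟩
              rw [hs1.F, tb_lor, tb_lor, Bool.or_eq_true, Bool.or_eq_true] at j2
              rcases j2 with j2 | j2
              · exact j2
              · rw [j2] at j1; simp at j1
          · exact Or.inr ⟨s', List.mem_cons_of_mem _ hs', j2⟩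

theorem evY_zero (gt gc : ℕ → Item) (fx N b F A K G : ℕ) : evY gt gc fx 0 N b F A K G = RX.bad :=
  rfl

theorem evY_succ (gt gc : ℕ → Item) (fx n N b F A K G : ℕ) : evY gt gc fx (n + 1) N b F A K G =
    (fun w =>
        Bool.rec (motive := fun _ => RX)
          ((fun c =>
            (fun bc A1 =>
              (fun b1 F1 =>
                evO b1 F1
                  (fun N4 E _ Z =>
                    Bool.rec (motive := fun _ => RX) RX.bad
                      (evN b1 F1 A1
                        (fun N5 U _ _ =>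
                          yN gt gc fx b1 F1 w A1
                            (fun N6 U' =>
                              evR (evY gt gc fx n) b1 F1 A1 U'
                                (Nat.mod (Nat.shiftRight N 19) 64) N6 F1 0 0)
                            (Nat.mod (Nat.shiftRight N 25) 64) N5 U)
                        (Nat.mod (Nat.shiftRight N 15) 16) N4
                        (Nat.lor E (xCells0 (Nat.shiftRight A1 12420))) 0 0)
                      (Nat.beq Z 0))
                  (Nat.mod (Nat.shiftRight N 11) 16) (Nat.shiftRight N 31) XFM 0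
                  (Nat.lor (Nat.land F bc) (Nat.shiftRight A1 16516)))
                (Nat.lor b bc) (Nat.lor F bc))
              (Nat.shiftLeft 1 c)
              (Nat.xor (Nat.lor A (Nat.shiftLeft XT5 c)) (Nat.shiftLeft XT5 c)))
            (Nat.mod (Nat.shiftRight N 1) 1024))
          (Bool.rec (motive := fun _ => RX)
            (evL (Nat.mod (Nat.shiftRight N 2) 16) (Nat.shiftRight N 6) b F A 0
              fun N' b' F' A' _ =>
                Bool.rec (motive := fun _ => RX)
                  (evY gt gc fx n (Nat.shiftRight N' 1) b' F' A' 0 0)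
                  (evE (Nat.shiftRight N' 1) b' F' fun N'' _ => RX.ok N'' 0 0)
                  (Nat.beq (Nat.mod N' 2) 0))
            (yGet gt fx (Nat.shiftRight N 2) fun N1 B W K C1 =>
              yFit b F w A B W K C1 N1 fun N2 _ _ => RX.ok N2 0 0)
            (Nat.beq (Nat.mod (Nat.shiftRight N 1) 2) 0))
          (Nat.beq (Nat.mod N 2) 0))
        (Nat.xor (Nat.xor F XNIM) (Nat.xor b XHI)) := rfl

theorem evY_sound {off : Cell} {gt gc : ℕ → Item} (hgt : GoodX gt)
    (hgc : ∀ i, ItemValid2 (gc i)) (fx : ℕ) :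
    ∀ (n N b F A K G N' K' G' : ℕ) (s : St), Rep off s b F A →
      evY gt gc fx n N b F A K G = RX.ok N' K' G' →
      ∃ M, Win M (dec off s.b) (dec off s.w) := by
  intro n
  induction n with
  | zero =>
    intro N b F A K G N' K' G' s _ hev
    rw [evY_zero] at hev
    simp at hev
  | succ n ih =>
    intro N b F A K G N' K' G' s hR hev
    rw [evY_succ] at hev
    simp only [hR.wEq] at hev
    have hI := hR.inv
    cases hb : Nat.beq (Nat.mod N 2) 0
    · -- a quiet move
      rw [hb] at hev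
      simp only at hev
      generalize hcdef : Nat.mod (Nat.shiftRight N 1) 1024 = c at hev
      have hc : c < 1024 := by rw [← hcdef]; exact Nat.mod_lt _ (by norm_num)
      generalize hA1 : Nat.xor (Nat.lor A (Nat.shiftLeft XT5 c)) (Nat.shiftLeft XT5 c) = A1 at hev
      obtain ⟨N1, E1, K1, Z1, hk, -, hZ⟩ := evO_spec _ hev
      clear hev
      obtain ⟨hbz, hk⟩ := rec_bad hk
      obtain ⟨hZ0, hnull⟩ := hZ (eq_of_beq hbz)
      obtain ⟨hl1, hl2⟩ := lor_eq_zero hZ0
      have hfree : isFree s c = true := hR.free hc hl1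
      obtain ⟨hin, hbb, hww⟩ := isFree_spec hc hfree
      have hR1 := hR.addB hc hfree
      rw [hA1] at hR1
      have h4 : (s.addB c).a4 = 0 := hR1.no4 hl2
      obtain ⟨hnO, hnO'⟩ := hnull off (s.addB c) A1 hR1
      have hI1 := hR1.inv
      obtain ⟨N2, U2, K2, G2, hk2, -, -, hU2, hU2'⟩ := evN_spec _ hR1 hk
      clear hk
      -- the null patterns and lines
      have hcov : CovF off (s.addB c) U2 := by
        apply covF_of_bits
        · intro i hi hUi
          rcases hU2 i hUi with h5 | ⟨O, hO, hOi⟩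
          · rw [tb_lor, Bool.or_eq_false_iff] at h5
            rcases hnO i h5.1 with h6 | ⟨O, hO, hOi⟩
            · exfalso
              rw [XFM_eq, fm_onBoard i hi] at h6
              simp at h6
            · obtain ⟨M, hM⟩ := covQ_nullOp hR1 h4 hO
              exact ⟨_, M, hM, by rw [tb_lor, hOi, h5.2]; rfl⟩
          · obtain ⟨M, hM⟩ := covQ_nullLn hI1 hO
            exact ⟨_, M, hM, hOi⟩
        · rcases hU2' with h5 | ⟨O, hO⟩
          · rcases hnO' with h6 | ⟨O, hO⟩
            · right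
              intro i hi
              rw [h5, tb_lor, h6, XFM_eq, fm_onBoard i hi]; rfl
            · obtain ⟨M, hM⟩ := covQ_nullOp hR1 h4 hO
              exact Or.inl ⟨_, M, hM⟩
          · obtain ⟨M, hM⟩ := covQ_nullLn hI1 hO
            exact Or.inl ⟨_, M, hM⟩
      have hk2' : yN gt gc fx (Nat.lor b (Nat.shiftLeft 1 c)) (Nat.lor F (Nat.shiftLeft 1 c))
          (s.addB c).w A1 (fun N6 U' => evR (evY gt gc fx n) (Nat.lor b (Nat.shiftLeft 1 c))
            (Nat.lor F (Nat.shiftLeft 1 c)) A1 U' (Nat.mod (Nat.shiftRight N 19) 64) N6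
            (Nat.lor F (Nat.shiftLeft 1 c)) 0 0) (Nat.mod (Nat.shiftRight N 25) 64) N2 U2 =
          RX.ok N' K' G' := hk2
      obtain ⟨N3, U3, hk3, hcov3⟩ := yN_gen hgt hgc hR1 (P := CovF off (s.addB c))
        (fun U O h1 h2 => h1.land h2) _ hk2' hcov
      clear hk2 hk2'
      obtain ⟨I, M1, r3, r4⟩ := evR_soundY (f := evY gt gc fx n) ih hR1 U3 _ _ _ _ _ _ _ _
        hR1.nim hk3
      clear hk3
      rcases hcov3 with ⟨M2, hM2⟩ | hfull
      · have hins : dec off (s.addB c).b = insert (cellOf off c) (dec off s.b) := dec_insert hc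
        refine ⟨max M1 M2 + 1, Win.of_and (b := cellOf off c) ?_ ?_ ?_⟩
        · rw [cellOf_mem_dec hc, hbb]; simp
        · rw [cellOf_mem_dec hc, hww]; simp
        · intro y hy1 hy2
          rw [← hins] at hy1 ⊢
          refine ⟨notHasFive_insertQ hI1 h4 hy1, ?_⟩
          by_cases hyU : y ∈ dec off U3
          · obtain ⟨i, hi, hUi, rfl⟩ := mem_dec.1 hyU
            obtain ⟨h5, h6⟩ := r4 i hUi
            have hyb : ¬ (s.addB c).b.testBit i = true := by
              rwa [cellOf_mem_dec hi] at hy1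
            have hyw : ¬ (s.addB c).w.testBit i = true := by
              rw [cellOf_mem_dec hi] at hy2; exact hy2
            rcases h6 with h6 | ⟨s', hs', h6⟩
            · exfalso
              rw [hR1.F, tb_lor, tb_lor, h5, Bool.or_false, Bool.or_eq_true] at h6
              rcases h6 with h6 | h6
              · exact hyb h6
              · exact hyw h6
            · obtain ⟨q1, q2, q3⟩ := r3 s' hs'
              rcases h6 with h6 | h6
              · exfalso
                rw [q1] at h6
                exact hyb h6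
              · rw [q1] at q3
                refine (q3.anti_w ?_).mono (le_max_left _ _)
                rw [Finset.insert_subset_iff]
                exact ⟨(cellOf_mem_dec hi).2 h6, Sub.dec q2 off⟩
          · exact (hM2 y hy1 hy2 hyU).mono (le_max_right _ _)
      · exfalso
        have h8 := (r4 0 (hfull 0 (by norm_num))).1
        rw [XNIM_eq] at h8
        exact absurd h8 (by decide +kernel)
    · rw [hb] at hev
      simp only at hev
      cases hb1 : Nat.beq (Nat.mod (Nat.shiftRight N 1) 2) 0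
      · -- a line
        rw [hb1] at hev
        simp only at hev
        obtain ⟨N1, b1, F1, A1, C1, s1, hR1, hfo, -, hk⟩ := evL_spec _ hR hev
        cases hb2 : Nat.beq (Nat.mod N1 2) 0
        · rw [hb2] at hk
          simp only at hk
          obtain ⟨M, hM⟩ := ih _ _ _ _ _ _ _ _ _ s1 hR1 hk
          exact hfo.winY hI hM
        · rw [hb2] at hk
          simp only at hk
          obtain ⟨c, hc, -⟩ := evE_spec hR1 hk
          exact hfo.winY hI (Five.winY hc)
      · -- an item
        rw [hb1] at hev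
        simp only at hev
        obtain ⟨N1, B, W, K, C1, h1, hV⟩ := yGet_spec hgt hev
        obtain ⟨N2, E, Q, T, -, h2, -⟩ := yFit_spec hR h1
        obtain ⟨M, hM⟩ := hV off T.dep
        exact ⟨M, hM T (le_refl _) _ _ h2⟩

/-! ### The table -/

theorem chkY_sound {gt gc : ℕ → Item} (hgt : GoodX gt) (hgc : ∀ i, ItemValid2 (gc i))
    {fx fuel b w N : ℕ} (h : chkY gt gc fx fuel b w N = true) : PGood (b, w) := by
  intro off
  unfold chkY at h
  obtain ⟨N', K', G', hev, -⟩ := rec_false h
  obtain ⟨N1, F1, A1, Z1, hev1, hB⟩ := evB_spec _ hev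
  obtain ⟨N2, F2, A2, Z2, hev2, hW⟩ := evW_spec _ hev1
  obtain ⟨hc, hev3⟩ := rec_bad hev2
  have hc' : (Nat.beq Z2 0 && (Nat.beq (Nat.xor F1 XNIM) b && Nat.beq (Nat.xor F2 F1) w)) = true :=
    hc
  simp only [Bool.and_eq_true] at hc'
  obtain ⟨c1, c2, c3⟩ := hc'
  obtain ⟨hZ1, hW⟩ := hW (eq_of_beq c1)
  obtain ⟨-, hB⟩ := hB hZ1
  obtain ⟨s1, hR1, hw1, -⟩ := hB off St.empty Rep.start
  have hw1' : s1.w = 0 := hw1
  obtain ⟨s2, hR2, hb2, -⟩ := hW off s1 _ hR1
  have e1 : s1.b = Nat.xor F1 XNIM := hR1.black hw1'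
  have e2 : s2.w = Nat.xor F2 F1 := hR1.white hR2 hw1' hb2
  rw [← e1] at hev3
  obtain ⟨M, hM⟩ := evY_sound hgt hgc fx _ _ _ _ _ _ _ _ _ _ s2 hR2 hev3
  refine ⟨M, ?_⟩
  rw [hb2, e1, e2, eq_of_beq c2, eq_of_beq c3] at hM
  exact hM

theorem PTb.validY {gt gc : ℕ → Item} (hgt : GoodX gt) (hgc : ∀ i, ItemValid2 (gc i))
    {fx fuel : ℕ} {t : PTb} (h : t.allY gt gc fx fuel = true) : t.Good := by
  induction t with
  | leaf b w hd cert =>
    intro i
    exact chkY_sound hgt hgc h
  | node l r ihl ihr =>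
    have h' : (l.allY gt gc fx fuel && r.allY gt gc fx fuel) = true := h
    rw [Bool.and_eq_true] at h'
    exact PTb.Good.node (ihl h'.1) (ihr h'.2)

end Pool.Agent.Gomoku
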