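import Pool.Agent.Helper47.Gom2.RootDef
import Pool.Agent.Helper93.Gomoku.EvQSound
import Pool.Agent.Helper36.Gomoku.FarPair

set_option autoImplicit false

namespace Pool.Agent.Gomoku

open Finset

/-! # Soundness of the check of a root position -/

/-- the indices move by a symmetry of the plane -/
theorem symI_spec {off : Cell} (code : ℕ) : ∃ g : Cell ≃ Cell, Sym g ∧ ∀ z, z < 1024 →
    symI code z < 1024 → cellOf off (symI code z) = g (cellOf off z) := by
  unfold symI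
  simp only
  generalize Nat.beq (Nat.mod code 2) 0 = s
  generalize Nat.beq (Nat.mod (Nat.shiftRight code 1) 2) 0 = nx
  generalize Nat.beq (Nat.mod (Nat.shiftRight code 2) 2) 0 = ny
  generalize Nat.mod (Nat.shiftRight code 3) 64 = tx
  generalize Nat.mod (Nat.shiftRight code 9) 64 = ty
  refine ⟨(d4 (!s) (!nx) (!ny)).trans (tr
    (cond nx (off.1 + tx - 32 - cond s off.1 off.2) (off.1 + tx + cond s off.1 off.2),
      cond ny (off.2 + ty - 32 - cond s off.2 off.1) (off.2 + ty + cond s off.2 off.1))),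
    (sym_d4 _ _ _).trans (sym_tr _), fun z hz h => ?_⟩
  have hX : (z.mod 32) = z % 32 := rfl
  have hY : (z.div 32) = z / 32 := rfl
  have hA : ∀ a b : ℕ, Nat.add a b = a + b := fun _ _ => rfl
  have hS : ∀ a b : ℕ, Nat.sub a b = a - b := fun _ _ => rfl
  have hM : ∀ a b : ℕ, Nat.mul a b = a * b := fun _ _ => rfl
  simp only [hX, hY, hA, hS, hM] at h ⊢
  have key : ∀ a b : ℕ, a < 32 → cellOf off (a + 32 * b) = (off.1 + a, off.2 + b) := by
    intro a b ha
    unfold cellOf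
    rw [show (a + 32 * b) % 32 = a by omega, show (a + 32 * b) / 32 = b by omega]
  unfold d4 tr
  simp only [Equiv.trans_apply, Equiv.coe_fn_mk]
  have hz : cellOf off z = (off.1 + ((z % 32 : ℕ) : ℤ), off.2 + ((z / 32 : ℕ) : ℤ)) := rfl
  rw [hz]
  generalize z % 32 = X at h ⊢
  generalize z / 32 = Y at h ⊢
  cases s <;> cases nx <;> cases ny <;>
  simp only [cond_true, cond_false, Bool.not_true, Bool.not_false, if_true, if_false,
    Bool.false_eq_true] at h ⊢ <;>
  rw [cond_eq_ite] at h ⊢ <;>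
  split_ifs at h ⊢ with hc <;>
  first
  | (exfalso; omega)
  | (simp only [Bool.and_eq_true] at hc
     obtain ⟨⟨h1, h2⟩, h3, h4⟩ := hc
     have h1 := Nat.le_of_ble_eq_true h1
     have h2 := Nat.le_of_ble_eq_true h2
     have h3 := Nat.le_of_ble_eq_true h3
     have h4 := Nat.le_of_ble_eq_true h4
     rw [key _ _ (by omega)]
     ext
     · simp only; omega
     · simp only; omega)

/-! ### library items -/

theorem one_le_capGR {off : Cell} {g C1 C2 : ℕ} (hg : 1 ≤ g) (L : Finset Cell) :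
    1 ≤ capG off g C1 C2 L := by
  unfold capG
  split_ifs
  · exact le_refl _
  · unfold capOf
    split_ifs <;> omega

/-- an item whose further white stones are at most one -/
theorem root_item {off : Cell} {it : Item} {dx dy : ℕ} (hv : ItemValid2 it)
    (hge : geOK it dx dy = true) {Bm : ℕ}
    (hB : Nat.land Bm (it.inst dx dy).B = (it.inst dx dy).B) :
    ∃ N, ∀ w : Finset Cell, Disjoint (dec off Bm) w →
      Disjoint (w \ dec off (it.inst dx dy).W) (dec off (it.inst dx dy).K) →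
      (w \ dec off (it.inst dx dy).W).card ≤ 1 → Win N (dec off Bm) w := by
  obtain ⟨h1, h2⟩ := geOK_spec hge
  obtain ⟨N, hN⟩ := (hv.2.2 off dx dy h1 h2).plain
  refine ⟨N, fun w hd hK hc => hN _ _ (dec_sub_of_land hB) hd hK ?_⟩
  intro L _ _
  exact (Finset.card_le_card Finset.inter_subset_right).trans
    (hc.trans (one_le_capGR hv.1 L))

theorem single_card {off : Cell} {X : ℕ} (h : single X = true) : (dec off X).card ≤ 1 := by
  rw [Finset.card_le_one]
  intro a ha b hb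
  rw [mem_dec] at ha hb
  obtain ⟨i, hi, hi', rfl⟩ := ha
  obtain ⟨j, hj, hj', rfl⟩ := hb
  rcases single_specQ h with h0 | h0
  · rw [h0] at hi'
    simp at hi'
  · rw [h0, Nat.testBit_two_pow] at hi' hj'
    have h1 := of_decide_eq_true hi'
    have h2 := of_decide_eq_true hj'
    rw [← h1, ← h2]

theorem dec_pairR {off : Cell} {a b : ℕ} (ha : a < 1024) (hb : b < 1024) :
    dec off (Nat.lor (bit1 a) (bit1 b)) = {cellOf off a, cellOf off b} := by
  rw [dec_lor]
  unfold bit1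
  rw [dec_bit ha, dec_bit hb]
  rfl

/-! ### the cells near a far stone -/

theorem tb_pat {d : ℕ} (hd : 1 ≤ d) : ∀ n s, s < n → (pat n d).testBit (s * d) = true := by
  intro n
  induction n with
  | zero => intro s hs; omega
  | succ n ih =>
    intro s hs
    have e : pat (n + 1) d = 2 ^ d * pat n d + 1 := by
      show Nat.add (Nat.shiftLeft (pat n d) d) 1 = _
      have : Nat.shiftLeft (pat n d) d = 2 ^ d * pat n d := by
        rw [Nat.mul_comm]
        exact Nat.shiftLeft_eq _ _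
      rw [this]
    have h1 : 1 < 2 ^ d := Nat.one_lt_two_pow (by omega)
    rw [e, Nat.testBit_two_pow_mul_add _ h1]
    rcases Nat.eq_zero_or_pos s with rfl | hs0
    · rw [Nat.zero_mul, if_pos (by omega)]
      rfl
    · have h2 : d ≤ s * d := Nat.le_mul_of_pos_left d hs0
      rw [if_neg (by omega)]
      have h3 : s * d - d = (s - 1) * d := by rw [Nat.sub_mul, Nat.one_mul]
      rw [h3]
      exact ih _ (by omega)

theorem tb_shl_r (a n i : ℕ) (h : n ≤ i) :
    (Nat.shiftLeft a n).testBit i = a.testBit (i - n) := by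
  have e : Nat.shiftLeft a n = a <<< n := rfl
  rw [e, Nat.testBit_shiftLeft]
  simp [h]

theorem beq_ne {a b i : ℕ} (ha : a.testBit i = true) (hb : b.testBit i = true) :
    Nat.beq (Nat.land a b) 0 = false := by
  cases h : Nat.beq (Nat.land a b) 0
  · rfl
  · have h1 := eq_of_beq h
    have h2 : (Nat.land a b).testBit i = true := by rw [tb_land, ha, hb]; rfl
    rw [h1] at h2
    simp at h2

theorem badJ_pos {KG x d j z s : ℕ} (hd : 1 ≤ d) (hs : s < 13 - j)
    (hz : z + 6 * d = x + j * d + s * d) (hb : KG.testBit z = true) :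
    (badJ (Nat.shiftLeft KG (Nat.mul 6 d)) x d j).testBit (x + j * d) = true := by
  unfold badJ
  simp only
  have h1 : (Nat.shiftLeft KG (Nat.mul 6 d)).testBit (z + 6 * d) = true := by
    rw [tb_shl_r _ _ _ (by show 6 * d ≤ _; omega)]
    have : z + 6 * d - Nat.mul 6 d = z := by show z + 6 * d - 6 * d = z; omega
    rw [this, hb]
  have h2 : (Nat.shiftLeft (pat (Nat.sub 13 j) d) (Nat.add x (Nat.mul j d))).testBit
      (z + 6 * d) = true := by
    rw [tb_shl_r _ _ _ (by show x + j * d ≤ _; omega)]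
    have : z + 6 * d - Nat.add x (Nat.mul j d) = s * d := by
      show z + 6 * d - (x + j * d) = s * d; omega
    rw [this]
    exact tb_pat hd _ _ hs
  rw [beq_ne h1 h2, tb_lor]
  simp only [cond_false]
  rw [show Nat.add x (Nat.mul j d) = x + j * d from rfl]
  unfold bit1
  rw [tb_bit]
  simp

theorem badJ_neg {KG x d j z s : ℕ} (hd : 1 ≤ d) (hs : s < 13 - j)
    (hz : z + 6 * d = x + s * d) (hb : KG.testBit z = true) :
    (badJ (Nat.shiftLeft KG (Nat.mul 6 d)) x d j).testBit (x - j * d) = true := by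
  unfold badJ
  simp only
  have h1 : (Nat.shiftLeft KG (Nat.mul 6 d)).testBit (z + 6 * d) = true := by
    rw [tb_shl_r _ _ _ (by show 6 * d ≤ _; omega)]
    have : z + 6 * d - Nat.mul 6 d = z := by show z + 6 * d - 6 * d = z; omega
    rw [this, hb]
  have h2 : (Nat.shiftLeft (pat (Nat.sub 13 j) d) x).testBit (z + 6 * d) = true := by
    rw [tb_shl_r _ _ _ (by omega)]
    have : z + 6 * d - x = s * d := by omega
    rw [this]
    exact tb_pat hd _ _ hs
  rw [beq_ne h1 h2, tb_lor]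
  simp only [cond_false]
  rw [show Nat.sub x (Nat.mul j d) = x - j * d from rfl]
  unfold bit1
  rw [tb_bit (x - j * d)]
  simp

theorem badDir_of {KG x d j i : ℕ} (h1 : 1 ≤ j) (h4 : j ≤ 4)
    (h : (badJ (Nat.shiftLeft KG (Nat.mul 6 d)) x d j).testBit i = true) :
    (badDir KG x d).testBit i = true := by
  unfold badDir
  simp only
  rw [tb_lor, tb_lor, tb_lor]
  obtain rfl | rfl | rfl | rfl : j = 1 ∨ j = 2 ∨ j = 3 ∨ j = 4 := by omega
  all_goals rw [h]; simp

theorem innerB_spec {x : ℕ} (h : innerB x = true) : Inner x := by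
  unfold innerB at h
  rw [Bool.and_eq_true] at h
  obtain ⟨h1, h2⟩ := h
  have h1 : x < 1024 := Nat.le_of_ble_eq_true h1
  have h2 := eq_of_beq h2
  apply nim_inner x h1
  have h3 : (Nat.land NIM (bit1 x)).testBit x = false := by rw [h2]; simp
  unfold bit1 at h3
  rw [tb_land, tb_bit] at h3
  simpa using h3

/-- one direction: index step `d`, vector `u` -/
theorem badDir_spec {off : Cell} {KG x d : ℕ} {u : Cell} (hx : Inner x)
    (hu : (u = (1, 0) ∧ d = 1) ∨ (u = (0, 1) ∧ d = 32) ∨ (u = (1, 1) ∧ d = 33) ∨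
      (u = (-1, 1) ∧ d = 31)) {i t : ℤ} (hi : -4 ≤ i) (hi' : i ≤ 4) (hi0 : i ≠ 0)
    (ht : max i 0 - 6 ≤ t) (ht' : t ≤ min i 0 + 6)
    (hK : at' (cellOf off x) u t ∈ dec off KG) :
    at' (cellOf off x) u i ∈ dec off (badDir KG x d) := by
  obtain ⟨x1, x2, x3, x4⟩ := hx
  rw [mem_dec] at hK
  obtain ⟨z, hz, hbit, he⟩ := hK
  unfold at' cellOf at he
  simp only [Prod.mk.injEq] at he
  obtain ⟨e1, e2⟩ := he
  have hX : x = 32 * (x / 32) + x % 32 := by omega
  have hZ : z = 32 * (z / 32) + z % 32 := by omega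
  have hZ1 : z % 32 < 32 := by omega
  have hZ2 : z / 32 < 32 := by omega
  rw [mem_dec]
  rcases lt_or_gt_of_ne hi0 with hneg | hpos
  · -- `i = -j`
    obtain ⟨j, rfl⟩ : ∃ j : ℕ, i = -(j : ℤ) := ⟨i.natAbs, by omega⟩
    obtain ⟨s, rfl⟩ : ∃ s : ℕ, t = s - 6 := ⟨(t + 6).toNat, by omega⟩
    have hj1 : 1 ≤ j := by omega
    have hj4 : j ≤ 4 := by omega
    have hs : s < 13 - j := by omega
    refine ⟨x - j * d, ?_, badDir_of hj1 hj4 (badJ_neg (s := s) ?_ hs ?_ hbit), ?_⟩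
    · omega
    · rcases hu with ⟨-, rfl⟩ | ⟨-, rfl⟩ | ⟨-, rfl⟩ | ⟨-, rfl⟩ <;> norm_num
    · rcases hu with ⟨rfl, rfl⟩ | ⟨rfl, rfl⟩ | ⟨rfl, rfl⟩ | ⟨rfl, rfl⟩ <;>
      simp only at e1 e2 <;> omega
    · unfold at' cellOf
      rcases hu with ⟨rfl, rfl⟩ | ⟨rfl, rfl⟩ | ⟨rfl, rfl⟩ | ⟨rfl, rfl⟩ <;>
      (ext
       · simp only; omega
       · simp only; omega)
  · obtain ⟨j, rfl⟩ : ∃ j : ℕ, i = (j : ℤ) := ⟨i.natAbs, by omega⟩
    obtain ⟨s, rfl⟩ : ∃ s : ℕ, t = s + j - 6 := ⟨(t + 6 - j).toNat, by omega⟩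
    have hj1 : 1 ≤ j := by omega
    have hj4 : j ≤ 4 := by omega
    have hs : s < 13 - j := by omega
    refine ⟨x + j * d, ?_, badDir_of hj1 hj4 (badJ_pos (s := s) (z := z) ?_ hs ?_ hbit), ?_⟩
    · rcases hu with ⟨-, rfl⟩ | ⟨-, rfl⟩ | ⟨-, rfl⟩ | ⟨-, rfl⟩ <;> omega
    · rcases hu with ⟨-, rfl⟩ | ⟨-, rfl⟩ | ⟨-, rfl⟩ | ⟨-, rfl⟩ <;> norm_num
    · rcases hu with ⟨rfl, rfl⟩ | ⟨rfl, rfl⟩ | ⟨rfl, rfl⟩ | ⟨rfl, rfl⟩ <;>
      simp only at e1 e2 <;> omega
    · unfold at' cellOf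
      rcases hu with ⟨rfl, rfl⟩ | ⟨rfl, rfl⟩ | ⟨rfl, rfl⟩ | ⟨rfl, rfl⟩ <;>
      (ext
       · simp only; omega
       · simp only; omega)

theorem badLines_spec {off : Cell} {KG x : ℕ} (hx : Inner x) {v : Cell} (hv : IsDir v)
    {i t : ℤ} (hi : -4 ≤ i) (hi' : i ≤ 4) (hi0 : i ≠ 0)
    (ht : max i 0 - 6 ≤ t) (ht' : t ≤ min i 0 + 6)
    (hK : at' (cellOf off x) v t ∈ dec off KG) :
    at' (cellOf off x) v i ∈ dec off (badLines KG x) := by
  unfold badLines
  rw [dec_lor, dec_lor, dec_lor, Finset.mem_union, Finset.mem_union, Finset.mem_union]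
  rcases hv with rfl | rfl | rfl | rfl
  · exact Or.inl (Or.inl (badDir_spec hx (Or.inl ⟨rfl, rfl⟩) hi hi' hi0 ht ht' hK))
  · exact Or.inl (Or.inr (badDir_spec hx (Or.inr (Or.inl ⟨rfl, rfl⟩)) hi hi' hi0 ht ht' hK))
  · exact Or.inr (Or.inl (badDir_spec hx (Or.inr (Or.inr (Or.inl ⟨rfl, rfl⟩))) hi hi' hi0 ht
      ht' hK))
  · have e : ∀ s : ℤ, at' (cellOf off x) (1, -1) s = at' (cellOf off x) (-1, 1) (-s) := by
      intro s
      unfold at'
      ext <;> simp
    rw [e] at hK ⊢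
    refine Or.inr (Or.inr (badDir_spec hx (Or.inr (Or.inr (Or.inr ⟨rfl, rfl⟩))) (by omega)
      (by omega) (by omega) ?_ ?_ hK))
    · omega
    · omega

/-! ### entries -/

/-- the statement of the lemma on two far stones -/
def FarPairStmt : Prop := ∀ (B2 : Finset Cell) (b3 : Cell) (KG : Finset Cell), b3 ∉ B2 →
  insert b3 B2 ⊆ KG → GValid (insert b3 B2) ∅ KG (fun _ => 2) →
  ∃ n, ∀ x1 y2, x1 ∉ KG → y2 ∉ KG → x1 ≠ y2 →
    (∀ v, IsDir v → ∀ i : ℤ, -4 ≤ i → i ≤ 4 → y2 = at' x1 v i →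
      ∀ t : ℤ, max i 0 - 6 ≤ t → t ≤ min i 0 + 6 → at' x1 v t ∉ KG) →
    Win n B2 {x1, y2}

/-- Black answers the reply `y` -/
def AnsR (off : Cell) (p1 p2 x N : ℕ) (y : Cell) : Prop :=
  y ∉ dec off (Nat.lor (bit1 p1) (bit1 p2)) → y ≠ cellOf off x →
    Win N (dec off (Nat.lor (bit1 p1) (bit1 p2))) {cellOf off x, y}

theorem AnsR.mono {off : Cell} {p1 p2 x N M : ℕ} {y : Cell} (h : AnsR off p1 p2 x N y)
    (hNM : N ≤ M) : AnsR off p1 p2 x M y := fun h1 h2 => (h h1 h2).mono hNM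

section
variable {off : Cell} {gt : ℕ → Item} {gp gd : ℕ → ℕ × ℕ} {p1 p2 x : ℕ}

theorem disj_pairR {y : Cell} (hxB : cellOf off x ∉ dec off (Nat.lor (bit1 p1) (bit1 p2)))
    (hy : y ∉ dec off (Nat.lor (bit1 p1) (bit1 p2))) :
    Disjoint (dec off (Nat.lor (bit1 p1) (bit1 p2))) {cellOf off x, y} := by
  rw [Finset.disjoint_insert_right, Finset.disjoint_singleton_right]
  exact ⟨hxB, hy⟩

theorem rootEnt_sound (hgt : ∀ i, ItemValid2 (gt i)) (hgp : ∀ i, PGood (gp i))
    (hp1 : p1 < 1024) (hp2 : p2 < 1024) (hx : x < 1024)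
    (hxB : cellOf off x ∉ dec off (Nat.lor (bit1 p1) (bit1 p2))) {y w : ℕ} (hy : y < 1024)
    (h : rootEnt gt gp p1 p2 x y w = true) : ∃ N, AnsR off p1 p2 x N (cellOf off y) := by
  unfold rootEnt at h
  simp only at h
  rw [cond_eq_ite] at h
  split_ifs at h with hk
  · simp only [Bool.and_eq_true] at h
    obtain ⟨⟨⟨h1, h2⟩, h3⟩, h4⟩ := h
    obtain ⟨N, hN⟩ := root_item (off := off) (hgt _) h1 (eq_of_beq h2)
    refine ⟨N, fun hyB _ => ?_⟩
    have e : ({cellOf off x, cellOf off y} : Finset Cell) =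
        dec off (Nat.lor (bit1 x) (bit1 y)) := (dec_pairR hx hy).symm
    have hd := disj_pairR hxB hyB
    rw [e] at hd ⊢
    apply hN _ hd
    · rw [← dec_minus]
      exact disj_of_land_zero (eq_of_beq h3)
    · rw [← dec_minus]
      exact single_card h4
  · simp only [Bool.and_eq_true] at h
    obtain ⟨⟨⟨⟨⟨h1, h2⟩, h3⟩, h4⟩, h5⟩, h6⟩ := h
    have h1 := Nat.le_of_ble_eq_true h1
    have h2 := Nat.le_of_ble_eq_true h2
    have h3 := Nat.le_of_ble_eq_true h3
    have h4 := Nat.le_of_ble_eq_true h4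
    have h5 := (subB_spec h5).dec off
    have h6 := (subB_spec h6).dec off
    obtain ⟨g, hg, hgz⟩ := symI_spec (off := off) (Nat.shiftRight (Nat.shiftRight w 1) 20)
    obtain ⟨N, hN⟩ := hgp (Nat.mod (Nat.shiftRight w 1) 1048576) off
    refine ⟨N, fun hyB _ => ?_⟩
    have hd := disj_pairR hxB hyB
    rw [dec_pairR h1 h2, hgz _ hp1 h1, hgz _ hp2 h2] at h5
    rw [dec_pairR h3 h4, hgz _ hx h3, hgz _ hy h4] at h6
    have e1 : ∀ a b : Cell, ({g a, g b} : Finset Cell) = mv g {a, b} := by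
      intro a b
      rw [mv_insert]
      congr 1
    rw [e1] at h5 h6
    rw [dec_pairR hp1 hp2] at hd ⊢
    rw [← win_mv hg]
    exact (hN.anti_w h6).mono_b h5 (mv_disjoint.2 hd)

theorem rootLoop_sound (hgt : ∀ i, ItemValid2 (gt i)) (hgp : ∀ i, PGood (gp i))
    (hp1 : p1 < 1024) (hp2 : p2 < 1024) (hx : x < 1024)
    (hxB : cellOf off x ∉ dec off (Nat.lor (bit1 p1) (bit1 p2))) :
    ∀ (l : List ℕ) (U : ℕ), rootLoop gt gp p1 p2 x l U = true →
      ∃ N, ∀ y ∈ dec off U, AnsR off p1 p2 x N y := by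
  intro l
  induction l with
  | nil =>
    intro U h
    unfold rootLoop at h
    have h := (subB_spec h).dec off
    refine ⟨0, fun y hy hyB hyx => ?_⟩
    have h1 := h hy
    rw [dec_lor, Finset.mem_union] at h1
    rcases h1 with h1 | h1
    · exact absurd h1 hyB
    · unfold bit1 at h1
      rw [dec_bit hx, Finset.mem_singleton] at h1
      exact absurd h1 hyx
  | cons w l ih =>
    intro U h
    unfold rootLoop at h
    simp only at h
    rw [cond_eq_ite] at h
    split_ifs at h with hc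
    have hylt : Nat.mod w 1024 < 1024 := nat_lt_1024 w
    obtain ⟨N1, hN1⟩ := rootEnt_sound hgt hgp hp1 hp2 hx hxB hylt hc
    obtain ⟨N2, hN2⟩ := ih _ h
    refine ⟨max N1 N2, fun y hy => ?_⟩
    by_cases he : y = cellOf off (Nat.mod w 1024)
    · rw [he]
      exact hN1.mono (le_max_left _ _)
    · refine (hN2 y ?_).mono (le_max_right _ _)
      rw [dec_minus, Finset.mem_sdiff]
      refine ⟨hy, ?_⟩
      unfold bit1
      rw [dec_bit hylt, Finset.mem_singleton]
      exact he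

theorem rootNull_sound (hfp : FarPairStmt) (hgt : ∀ i, ItemValid2 (gt i))
    (hgd : ∀ i, GDGood p1 p2 (gd i)) (hxI : Inner x)
    (hxB : cellOf off x ∉ dec off (Nat.lor (bit1 p1) (bit1 p2))) {wd : ℕ}
    (h : rootNullOK gt gd p1 p2 x wd = true) :
    ∃ N, ∀ y, y ∉ dec off (rootNullU gt gd x wd) → AnsR off p1 p2 x N y := by
  have hx : x < 1024 := inner_lt hxI
  unfold rootNullOK at h
  unfold rootNullU
  simp only at h ⊢
  rw [cond_eq_ite] at h ⊢
  split_ifs at h ⊢ with hk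
  · simp only [Bool.and_eq_true] at h
    obtain ⟨⟨h1, h2⟩, h3⟩ := h
    obtain ⟨N, hN⟩ := root_item (off := off) (hgt _) h1 (eq_of_beq h2)
    have h3 := (subB_spec h3).dec off
    unfold bit1 at h3
    rw [dec_bit hx, Finset.singleton_subset_iff] at h3
    refine ⟨N, fun y hyU hyB _ => hN _ (disj_pairR hxB hyB) ?_ ?_⟩
    · rw [Finset.insert_sdiff_of_mem _ h3]
      refine Finset.disjoint_of_subset_left Finset.sdiff_subset ?_
      rw [Finset.disjoint_singleton_left]
      exact hyU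
    · rw [Finset.insert_sdiff_of_mem _ h3]
      exact (Finset.card_le_card Finset.sdiff_subset).trans (by simp)
  · obtain ⟨g1, g2⟩ := hgd (Nat.mod (Nat.shiftRight wd 1) 1048576)
    obtain ⟨g3, g4, g5⟩ := g2 off
    obtain ⟨N, hN⟩ := hfp _ _ _ g3 g4 g5
    have h := disj_of_land_zero (off := off) (eq_of_beq h)
    unfold bit1 at h
    rw [dec_bit hx, Finset.disjoint_singleton_left] at h
    refine ⟨N, fun y hyU hyB hyx => ?_⟩
    rw [dec_lor, Finset.mem_union, not_or] at hyU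
    refine hN _ _ h hyU.1 (fun h => hyx h.symm) ?_
    intro v hv i hi hi' he t ht ht' hK
    by_cases hi0 : i = 0
    · apply hyx
      rw [he, hi0]
      unfold at'
      ext <;> simp
    · apply hyU.2
      rw [he]
      exact badLines_spec hxI hv hi hi' hi0 ht ht' hK

theorem rootNulls_sound (hfp : FarPairStmt) (hgt : ∀ i, ItemValid2 (gt i))
    (hgp : ∀ i, PGood (gp i)) (hgd : ∀ i, GDGood p1 p2 (gd i)) (hxI : Inner x)
    (hp1 : p1 < 1024) (hp2 : p2 < 1024)
    (hxB : cellOf off x ∉ dec off (Nat.lor (bit1 p1) (bit1 p2))) {l : List ℕ} :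
    ∀ (nl : List ℕ) (U : ℕ), rootNulls gt gp gd p1 p2 x l nl U = true →
      (∃ N, ∀ y, y ∉ dec off U → AnsR off p1 p2 x N y) → ∃ N, ∀ y, AnsR off p1 p2 x N y := by
  intro nl
  induction nl with
  | nil =>
    intro U h hU
    unfold rootNulls at h
    obtain ⟨N1, h1⟩ := hU
    obtain ⟨N2, h2⟩ := rootLoop_sound hgt hgp hp1 hp2 (inner_lt hxI) hxB _ _ h
    refine ⟨max N1 N2, fun y => ?_⟩
    by_cases hy : y ∈ dec off U
    · exact (h2 y hy).mono (le_max_right _ _)
    · exact (h1 y hy).mono (le_max_left _ _)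
  | cons wd nl ih =>
    intro U h hU
    unfold rootNulls at h
    rw [cond_eq_ite] at h
    split_ifs at h with hc
    obtain ⟨N1, h1⟩ := hU
    obtain ⟨N2, h2⟩ := rootNull_sound hfp hgt hgd hxI hxB hc
    refine ih _ h ⟨max N1 N2, fun y hy => ?_⟩
    rw [dec_land, Finset.mem_inter, not_and_or] at hy
    rcases hy with hy | hy
    · exact (h1 y hy).mono (le_max_left _ _)
    · exact (h2 y hy).mono (le_max_right _ _)

end

/-- The root check is sound (given the lemma on two far stones). -/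
theorem rootChk_sound_of {gt : ℕ → Item} {gp gd : ℕ → ℕ × ℕ} (hfp : FarPairStmt)
    (hgt : ∀ i, ItemValid2 (gt i)) (hgp : ∀ i, PGood (gp i)) {p1 p2 x wd : ℕ}
    (hgd : ∀ i, GDGood p1 p2 (gd i)) {nl l : List ℕ}
    (h : rootChk gt gp gd p1 p2 x wd nl l = true) :
    ∀ off, ∃ n, AndWin n (dec off (Nat.lor (bit1 p1) (bit1 p2))) (dec off (bit1 x)) := by
  intro off
  unfold rootChk at h
  simp only [Bool.and_eq_true] at h
  obtain ⟨⟨⟨⟨⟨h1, h2⟩, h3⟩, h4⟩, h5⟩, h6⟩ := h
  have hxI := innerB_spec h1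
  have hx := inner_lt hxI
  have hp1 := inner_lt (innerB_spec h2)
  have hp2 := inner_lt (innerB_spec h3)
  have e : dec off (bit1 x) = {cellOf off x} := dec_bit hx
  have h4 := disj_of_land_zero (off := off) (eq_of_beq h4)
  rw [e, Finset.disjoint_singleton_right] at h4
  obtain ⟨N, hN⟩ := rootNulls_sound hfp hgt hgp hgd hxI hp1 hp2 h4 _ _ h6
    (rootNull_sound hfp hgt hgd hxI h4 h5)
  refine ⟨N, fun y hyB hyW => ?_⟩
  rw [e] at hyW ⊢
  rw [Finset.mem_singleton] at hyW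
  constructor
  · apply not_hasFive_of_card
    exact (Finset.card_insert_le _ _).trans_lt (by simp)
  · rw [Finset.pair_comm]
    exact hN y hyB hyW

/-- The root check is sound. -/
theorem rootChk_sound {gt : ℕ → Item} {gp gd : ℕ → ℕ × ℕ}
    (hgt : ∀ i, ItemValid2 (gt i)) (hgp : ∀ i, PGood (gp i)) {p1 p2 x wd : ℕ}
    (hgd : ∀ i, GDGood p1 p2 (gd i)) {nl l : List ℕ}
    (h : rootChk gt gp gd p1 p2 x wd nl l = true) :
    ∀ off, ∃ n, AndWin n (dec off (Nat.lor (bit1 p1) (bit1 p2))) (dec off (bit1 x)) :=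
  rootChk_sound_of (fun _ _ _ h1 h2 h3 => far_pair h1 h2 h3) hgt hgp hgd h

end Pool.Agent.Gomoku
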