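import Pool.Agent.Helper47.Gom3.XSpec
set_option autoImplicit false
namespace Pool.Agent.Gomoku

theorem or_add_and (x : ℕ) : ∀ y, x + y = (x ||| y) + (x &&& y) := by
  induction x using Nat.strongRecOn with
  | _ x ih =>
    intro y
    rcases Nat.eq_zero_or_pos x with rfl | hx
    · simp
    have h1 := ih (x / 2) (by omega) (y / 2)
    have h2 : (x ||| y) / 2 = x / 2 ||| y / 2 := Nat.or_div_two
    have h3 : (x &&& y) / 2 = x / 2 &&& y / 2 := Nat.and_div_two
    have h4 : (x ||| y) % 2 = x % 2 ||| y % 2 := Nat.or_mod_two_pow (n := 1)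
    have h5 : (x &&& y) % 2 = x % 2 &&& y % 2 := Nat.and_mod_two_pow (n := 1)
    have h6 : x % 2 + y % 2 = (x % 2 ||| y % 2) + (x % 2 &&& y % 2) := by
      rcases Nat.mod_two_eq_zero_or_one x with h | h <;>
        rcases Nat.mod_two_eq_zero_or_one y with h' | h' <;> rw [h, h'] <;> rfl
    omega

theorem XNIM_eq : XNIM = NIM := by decide +kernel
theorem XFM_eq : XFM = FM := by decide +kernel
theorem XVM_eq : XVM = VM := by decide +kernel

theorem XM_eq : XM = 2 ^ 4096 - 1 := by decide +kernel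

theorem tb_xor (x y i : ℕ) : (Nat.xor x y).testBit i = (x.testBit i ^^ y.testBit i) :=
  Nat.testBit_xor _ _ _
theorem tb_xshr (x n i : ℕ) : (Nat.shiftRight x n).testBit i = x.testBit (n + i) :=
  Nat.testBit_shiftRight _
theorem tb_shl (x n i : ℕ) :
    (Nat.shiftLeft x n).testBit i = (decide (n ≤ i) && x.testBit (i - n)) :=
  Nat.testBit_shiftLeft _

theorem tb_XM (i : ℕ) : XM.testBit i = decide (i < 4096) := by
  rw [XM_eq, Nat.testBit_two_pow_sub_one]

theorem tb_lane (A l i : ℕ) :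
    (laneX A l).testBit i = (A.testBit (132 + 4096 * l + i) && decide (i < 4096)) := by
  unfold laneX
  rw [tb_land, tb_xshr, tb_XM]

theorem XT5_aux : ∀ l, l < 5 → (XT5 >>> (4096 * l)) % 2 ^ 4096 = TM := by decide +kernel
theorem XT4_aux : ∀ l, l < 4 → (XT4 >>> (4096 * l)) % 2 ^ 4096 = TM := by decide +kernel

theorem tb_of_aux {T n : ℕ} (h : ∀ l, l < n → (T >>> (4096 * l)) % 2 ^ 4096 = TM) {l m : ℕ}
    (hl : l < n) (hm : m < 4096) : T.testBit (4096 * l + m) = TM.testBit m := by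
  rw [← h l hl, Nat.testBit_mod_two_pow, Nat.testBit_shiftRight]
  simp [hm]

theorem TM_high : ∀ m, 3300 ≤ m → TM.testBit m = false := by
  intro m hm
  have h1 : TM >>> 3300 = 0 := by decide +kernel
  have h2 := Nat.testBit_shiftRight (i := 3300) (j := m - 3300) TM
  rw [h1, Nat.zero_testBit, show 3300 + (m - 3300) = m by omega] at h2
  exact h2.symm

theorem TM_low : ∀ m, m < 128 → TM.testBit m = false := by decide +kernel

/-- the bits of the shifted table -/
theorem tb_tab {T n : ℕ} (h : ∀ l, l < n → (T >>> (4096 * l)) % 2 ^ 4096 = TM) {c l i : ℕ}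
    (hc : Inner c) (hl : l < n) (hi : i < 4096) :
    (Nat.shiftLeft T c).testBit (132 + 4096 * l + i) = (WT c).testBit i := by
  have hc1 : 132 ≤ c ∧ c ≤ 891 := by unfold Inner at hc; omega
  unfold WT
  rw [tb_shl, tb_shl]
  change _ = (decide (c - 132 ≤ i) && TM.testBit (i - (c - 132)))
  by_cases h1 : c - 132 ≤ i
  · have h2 : c ≤ 132 + 4096 * l + i := by omega
    have h3 : 132 + 4096 * l + i - c = 4096 * l + (i - (c - 132)) := by omega
    rw [h3, tb_of_aux h hl (by omega)]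
    simp [h1, h2]
  · rcases Nat.eq_zero_or_pos l with rfl | hl0
    · have h2 : ¬ c ≤ 132 + 4096 * 0 + i := by omega
      simp [h1, h2]
    · have h3 : 132 + 4096 * l + i - c = 4096 * (l - 1) + (4096 + (132 + i) - c) := by
        obtain ⟨l', rfl⟩ : ∃ l', l = l' + 1 := ⟨l - 1, by omega⟩
        simp only [Nat.add_sub_cancel]
        omega
      rw [h3, tb_of_aux h (by omega) (by omega), TM_high _ (by omega)]
      simp [h1]

theorem inner_xnimL {c : ℕ} (hc : Inner c) : XNIM.testBit c = false := by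
  have h : ∀ y < 24, ∀ x < 24, XNIM.testBit (32 * (y + 4) + (x + 4)) = false := by
    decide +kernel
  unfold Inner at hc
  have := h (c / 32 - 4) (by omega) (c % 32 - 4) (by omega)
  rwa [show 32 * (c / 32 - 4 + 4) + (c % 32 - 4 + 4) = c by omega] at this

theorem XVA_eq : XVA = Nat.shiftLeft VM 132 := by decide +kernel

theorem laneX_XVA0 : laneX XVA 0 = VM := by decide +kernel
theorem laneX_XVA1 : laneX XVA 1 = 0 := by decide +kernel
theorem laneX_XVA2 : laneX XVA 2 = 0 := by decide +kernel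
theorem laneX_XVA3 : laneX XVA 3 = 0 := by decide +kernel
theorem laneX_XVA4 : laneX XVA 4 = 0 := by decide +kernel

theorem Rep.start {off : Cell} : Rep off St.empty (Nat.lor XHI 0) XNIM XVA where
  inv := Inv.empty
  b := rfl
  F := by decide +kernel
  lv := laneX_XVA0.symm
  a1 := laneX_XVA1.symm
  a2 := laneX_XVA2.symm
  a3 := laneX_XVA3.symm
  a4 := laneX_XVA4.symm
  n2 := fun i h => h
  n3 := fun i h => h

theorem Rep.free {off : Cell} {s : St} {b F A c : ℕ} (h : Rep off s b F A) (hc : c < 1024)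
    (hf : Nat.land F (Nat.shiftLeft 1 c) = 0) : isFree s c = true := by
  unfold isFree
  rw [← XNIM_eq, ← h.F, hf]
  rfl

theorem Rep.land_of_free {off : Cell} {s : St} {b F A c : ℕ} (h : Rep off s b F A)
    (hf : isFree s c = true) : Nat.land F (Nat.shiftLeft 1 c) = 0 := by
  unfold isFree at hf
  rw [← XNIM_eq, ← h.F] at hf
  exact eq_of_beq hf

theorem laneX_minus {A c l : ℕ} (hc : Inner c) (hl : l < 5) :
    laneX (Nat.xor (Nat.lor A (Nat.shiftLeft XT5 c)) (Nat.shiftLeft XT5 c)) l =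
      minus (laneX A l) (WT c) := by
  apply Nat.eq_of_testBit_eq
  intro i
  change (laneX (minus A (Nat.shiftLeft XT5 c)) l).testBit i = _
  rw [tb_lane, tb_minus, tb_minus, tb_lane]
  by_cases hi : i < 4096
  · rw [tb_tab XT5_aux hc hl hi]
    simp [hi]
  · simp [hi]

theorem tb_addW_lane {A c l i : ℕ} (hc : Inner c) (hl : l < 4) (hi : i < 4096) :
    (Nat.lor A (Nat.shiftLeft (Nat.land A (Nat.shiftLeft XT4 c)) 4096)).testBit
        (132 + 4096 * (l + 1) + i) =
      (A.testBit (132 + 4096 * (l + 1) + i) ||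
        (A.testBit (132 + 4096 * l + i) && (WT c).testBit i)) := by
  rw [tb_lor, tb_shl, tb_land]
  have h1 : 132 + 4096 * (l + 1) + i - 4096 = 132 + 4096 * l + i := by omega
  have h2 : 4096 ≤ 132 + 4096 * (l + 1) + i := by omega
  rw [h1, tb_tab XT4_aux hc hl hi]
  simp [h2]

theorem laneX_addW {A c l : ℕ} (hc : Inner c) (hl : l < 4) :
    laneX (Nat.lor A (Nat.shiftLeft (Nat.land A (Nat.shiftLeft XT4 c)) 4096)) (l + 1) =
      Nat.lor (laneX A (l + 1)) (Nat.land (laneX A l) (WT c)) := by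
  apply Nat.eq_of_testBit_eq
  intro i
  rw [tb_lane, tb_lor (laneX A (l + 1)), tb_land (laneX A l), tb_lane, tb_lane]
  by_cases hi : i < 4096
  · rw [tb_addW_lane hc hl hi]
    simp [hi]
  · simp [hi]

theorem laneX_addW0 {A c : ℕ} (hc : Inner c) :
    laneX (Nat.lor A (Nat.shiftLeft (Nat.land A (Nat.shiftLeft XT4 c)) 4096)) 0 = laneX A 0 := by
  have hc1 : 132 ≤ c := by unfold Inner at hc; omega
  apply Nat.eq_of_testBit_eq
  intro i
  rw [tb_lane, tb_lane, tb_lor, tb_shl, tb_land, tb_shl]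
  by_cases hi : i < 4096
  · have h1 : ¬ c ≤ 132 + 4096 * 0 + i - 4096 := by omega
    simp [h1]
  · simp [hi]

theorem lor_comm3 (x y z : ℕ) : Nat.lor (Nat.lor x y) z = Nat.lor (Nat.lor x z) y := by
  apply Nat.eq_of_testBit_eq
  intro i
  simp only [tb_lor]
  cases x.testBit i <;> cases y.testBit i <;> cases z.testBit i <;> rfl

theorem lor_assoc' (x y z : ℕ) : Nat.lor (Nat.lor x y) z = Nat.lor x (Nat.lor y z) := by
  apply Nat.eq_of_testBit_eq
  intro i
  simp only [tb_lor]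
  cases x.testBit i <;> cases y.testBit i <;> cases z.testBit i <;> rfl

theorem Sub.minus {x y t : ℕ} (h : Sub x y) : Sub (minus x t) (minus y t) := by
  intro i hi
  rw [tb_minus, Bool.and_eq_true] at hi ⊢
  exact ⟨h i hi.1, hi.2⟩

theorem Rep.addB {off : Cell} {s : St} {b F A c : ℕ} (h : Rep off s b F A) (hc : c < 1024)
    (hf : isFree s c = true) :
    Rep off (s.addB c) (Nat.lor b (Nat.shiftLeft 1 c)) (Nat.lor F (Nat.shiftLeft 1 c))
      (Nat.xor (Nat.lor A (Nat.shiftLeft XT5 c)) (Nat.shiftLeft XT5 c)) where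
  inv := h.inv.addB (isFree_spec hc hf).1 (isFree_spec hc hf).2.2
  b := by
    rw [h.b, lor_assoc']; rfl
  F := by
    rw [h.F, lor_comm3, lor_comm3 s.b]; rfl
  lv := by
    rw [laneX_minus (isFree_spec hc hf).1 (by norm_num), ← h.lv]; rfl
  a1 := by
    rw [laneX_minus (isFree_spec hc hf).1 (by norm_num), ← h.a1]; rfl
  a2 := by
    rw [laneX_minus (isFree_spec hc hf).1 (by norm_num), ← h.a2]; rfl
  a3 := by
    rw [laneX_minus (isFree_spec hc hf).1 (by norm_num), ← h.a3]; rfl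
  a4 := by
    rw [laneX_minus (isFree_spec hc hf).1 (by norm_num), ← h.a4]; rfl
  n2 := h.n2.minus
  n3 := h.n3.minus

theorem add_bit {F c : ℕ} (h : Nat.land F (Nat.shiftLeft 1 c) = 0) :
    Nat.add F (Nat.shiftLeft 1 c) = Nat.lor F (Nat.shiftLeft 1 c) := by
  have h1 := or_add_and F (Nat.shiftLeft 1 c)
  have h2 : F &&& (Nat.shiftLeft 1 c) = 0 := h
  rw [h2] at h1
  exact h1

theorem Rep.addW {off : Cell} {s : St} {b F A c : ℕ} (h : Rep off s b F A) (hc : c < 1024)
    (hf : isFree s c = true) :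
    Rep off (s.addW c) b (Nat.add F (Nat.shiftLeft 1 c))
      (Nat.lor A (Nat.shiftLeft (Nat.land A (Nat.shiftLeft XT4 c)) 4096)) where
  inv := h.inv.addW (isFree_spec hc hf).1 (isFree_spec hc hf).2.1
  b := h.b
  F := by
    rw [add_bit (h.land_of_free hf), h.F, lor_comm3, lor_assoc' s.b]; rfl
  lv := by
    rw [laneX_addW0 (isFree_spec hc hf).1, ← h.lv]; rfl
  a1 := by
    rw [laneX_addW (l := 0) (isFree_spec hc hf).1 (by norm_num), ← h.lv, ← h.a1]; rfl
  a2 := by
    rw [laneX_addW (l := 1) (isFree_spec hc hf).1 (by norm_num), ← h.a1, ← h.a2]; rfl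
  a3 := by
    rw [laneX_addW (l := 2) (isFree_spec hc hf).1 (by norm_num), ← h.a2, ← h.a3]; rfl
  a4 := by
    rw [laneX_addW (l := 3) (isFree_spec hc hf).1 (by norm_num), ← h.a3, ← h.a4]; rfl
  n2 := by
    intro i hi
    have h2 : (Nat.lor s.a2 (Nat.land s.a1 (WT c))).testBit i = true := hi
    show (Nat.lor s.a1 (Nat.land s.lv (WT c))).testBit i = true
    rw [tb_lor, tb_land, Bool.or_eq_true, Bool.and_eq_true] at h2
    rw [tb_lor, Bool.or_eq_true]
    rcases h2 with h2 | h2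
    · exact Or.inl (h.n2 i h2)
    · exact Or.inl h2.1
  n3 := by
    intro i hi
    have h2 : (Nat.lor s.a3 (Nat.land s.a2 (WT c))).testBit i = true := hi
    show (Nat.lor s.a2 (Nat.land s.a1 (WT c))).testBit i = true
    rw [tb_lor, tb_land, Bool.or_eq_true, Bool.and_eq_true] at h2
    rw [tb_lor, Bool.or_eq_true]
    rcases h2 with h2 | h2
    · exact Or.inl (h.n3 i h2)
    · exact Or.inl h2.1

theorem Rep.no4 {off : Cell} {s : St} {b F A : ℕ} (h : Rep off s b F A)
    (h4 : Nat.shiftRight A 16516 = 0) : s.a4 = 0 := by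
  rw [h.a4]
  unfold laneX
  rw [show 132 + 4096 * 4 = 16516 from rfl, h4]
  exact Nat.zero_and XM

/-! ### The five patterns -/

theorem XPX_aux : ∀ d, d < 4 → (XPX >>> (2048 * d)) % 2 ^ 2048 =
    Nat.land (Nat.shiftRight PP (Nat.mul 160 d)) M160 := by decide +kernel

theorem five_VM_aux : ∀ a, a < 64 → ∀ b, b < 64 →
    (!(Nat.beq (Nat.land IM (fivePat (64 * a + b))) (fivePat (64 * a + b))) ||
      VM.testBit (64 * a + b)) = true := by decide +kernel

theorem five_VM {k : ℕ} (hk : k < 4096) (h : Sub (fivePat k) IM) : VM.testBit k = true := by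
  have h1 := five_VM_aux (k / 64) (by omega) (k % 64) (by omega)
  rw [show 64 * (k / 64) + k % 64 = k by omega] at h1
  have h2 : Nat.land IM (fivePat k) = fivePat k := by
    apply Nat.eq_of_testBit_eq
    intro i
    rw [tb_land]
    cases hi : (fivePat k).testBit i
    · simp
    · rw [h i hi]; rfl
  rw [h2, Nat.beq_refl] at h1
  simpa using h1

theorem XHI_low : ∀ i, i < 2048 → XHI.testBit i = false := by
  intro i hi
  have h1 : XHI = (XHI >>> 2048) <<< 2048 := by decide +kernel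
  rw [h1, Nat.testBit_shiftLeft]
  have : ¬ i ≥ 2048 := by omega
  simp [this]

theorem sub_of_xor {p b : ℕ} (h : Nat.xor (Nat.lor p b) b = 0) : Sub p b := by
  intro i hi
  have h1 : (minus p b).testBit i = false := by
    unfold minus
    rw [h]
    exact Nat.zero_testBit i
  rw [tb_minus, hi] at h1
  simpa using h1

theorem d_eq (n : ℕ) : Nat.land n 6144 = 2048 * (n / 2048 % 4) := by
  apply Nat.eq_of_testBit_eq
  intro i
  have h1 : (6144 : ℕ) = (2 ^ 2 - 1) <<< 11 := by decide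
  have h2 : 2048 * (n / 2048 % 4) = ((n >>> 11) % 2 ^ 2) <<< 11 := by
    rw [Nat.shiftLeft_eq, Nat.shiftRight_eq_div_pow, Nat.mul_comm]
    norm_num
  rw [h2, tb_land, h1]
  rw [Nat.testBit_shiftLeft, Nat.testBit_shiftLeft, Nat.testBit_mod_two_pow,
    Nat.testBit_two_pow_sub_one, Nat.testBit_shiftRight]
  by_cases hi : 11 ≤ i
  · rw [show 11 + (i - 11) = i by omega]
    simp [hi, Bool.and_comm]
  · have : ¬ i ≥ 11 := hi
    simp [this]

/-- the check of a five -/
theorem five_of_sub {S d s0 : ℕ}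
    (hd : d < 4) (hs0 : s0 < 1024) (hS : Sub S IM)
    (hsub : Sub (Nat.shiftLeft (Nat.shiftRight XPX (2048 * d)) s0) (Nat.lor XHI S)) :
    fiveOK S (1024 * d + s0) = true := by
  have e1 : (1024 * d + s0) / 1024 = d := by omega
  have e2 : (1024 * d + s0) % 1024 = s0 := by omega
  have hpat : ∀ i, (fivePat (1024 * d + s0)).testBit i = true → S.testBit i = true := by
    intro i hi
    unfold fivePat at hi
    rw [show Nat.div (1024 * d + s0) 1024 = d from e1, show Nat.mod (1024 * d + s0) 1024 = s0 from e2,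
      ← XPX_aux d hd, tb_shl, Nat.testBit_mod_two_pow, Nat.testBit_shiftRight] at hi
    simp only [Bool.and_eq_true, decide_eq_true_eq] at hi
    obtain ⟨h1, h2, h3⟩ := hi
    have h5 : i < 2048 := by
      by_contra hne
      have h6 := XPX_aux d hd
      have h7 : (Nat.land (Nat.shiftRight PP (Nat.mul 160 d)) M160).testBit (i - s0) = true := by
        rw [← h6, Nat.testBit_mod_two_pow, Nat.testBit_shiftRight]
        simp [h2, h3]
      rw [tb_land, Bool.and_eq_true] at h7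
      have h8 : M160 < 2 ^ 160 := by decide +kernel
      have h9 : M160.testBit (i - s0) = false :=
        Nat.testBit_lt_two_pow (lt_of_lt_of_le h8 (Nat.pow_le_pow_right (by norm_num) (by omega)))
      rw [h9] at h7
      exact absurd h7.2 Bool.false_ne_true
    have h4 := hsub i (by
      rw [tb_shl, tb_xshr]
      simp [h1, h3])
    rw [tb_lor, XHI_low i h5] at h4
    simpa using h4
  unfold fiveOK
  simp only [Bool.and_eq_true]
  constructor
  · have : Nat.land S (fivePat (1024 * d + s0)) = fivePat (1024 * d + s0) := by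
      apply Nat.eq_of_testBit_eq
      intro i
      rw [tb_land]
      cases hi : (fivePat (1024 * d + s0)).testBit i
      · simp
      · rw [hpat i hi]; rfl
    rw [this, Nat.beq_refl]
  · exact five_VM (by omega) (fun i hi => hS i (hpat i hi))

theorem Rep.sub_IM {off : Cell} {s : St} {b F A : ℕ} (h : Rep off s b F A) : Sub s.b IM :=
  fun i hi => testBit_IM.2 (h.inv.bi i hi)

theorem sub_bit_IM {c : ℕ} (h : Inner c) : Sub (Nat.shiftLeft 1 c) IM := by
  intro i hi
  rw [tb_bit, decide_eq_true_eq] at hi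
  subst hi
  exact testBit_IM.2 h

theorem lor_eq_zero {x y : ℕ} (h : Nat.lor x y = 0) : x = 0 ∧ y = 0 := Nat.or_eq_zero_iff.1 h

theorem eq_of_xor {x y : ℕ} (h : Nat.xor x y = 0) : x = y := Nat.xor_eq_zero_iff.1 h

theorem dShift (N a : ℕ) : Nat.shiftRight XPX (Nat.land (Nat.shiftRight N a) 6144) =
    Nat.shiftRight XPX (2048 * (Nat.shiftRight N a / 2048 % 4)) := by
  rw [d_eq]

theorem evL_zero {N b F A C : ℕ} {k : ℕ → ℕ → ℕ → ℕ → ℕ → RX} :
    evL 0 N b F A C k = k N b F A C := rfl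

theorem evL_succ {m N b F A C : ℕ} {k : ℕ → ℕ → ℕ → ℕ → ℕ → RX} :
    evL (m + 1) N b F A C k =
      (fun c t p =>
        (fun bc bt A1 =>
          (fun b1 F2 =>
            Bool.rec (motive := fun _ => RX) RX.bad
              (evL m (Nat.shiftRight N 32) b1 F2
                (Nat.lor A1 (Nat.shiftLeft (Nat.land A1 (Nat.shiftLeft XT4 t)) 4096))
                (Nat.lor C A1) k)
              (Nat.beq (Nat.lor (Nat.lor (Nat.xor F2 (Nat.lor (Nat.lor F bc) bt))
                (Nat.shiftRight A1 16516)) (Nat.xor (Nat.lor p (Nat.lor b1 bt)) (Nat.lor b1 bt))) 0))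
            (Nat.lor b bc) (Nat.add (Nat.add F bc) bt))
          (Nat.shiftLeft 1 c) (Nat.shiftLeft 1 t)
          (Nat.xor (Nat.lor A (Nat.shiftLeft XT5 c)) (Nat.shiftLeft XT5 c)))
        (Nat.mod N 1024) (Nat.mod (Nat.shiftRight N 10) 1024)
        (Nat.shiftLeft (Nat.shiftRight XPX (Nat.land (Nat.shiftRight N 19) 6144))
          (Nat.mod (Nat.shiftRight N 20) 1024)) := rfl

theorem rec_bad {x : RX} {c : Bool} {N' K' G' : ℕ}
    (h : Bool.rec (motive := fun _ => RX) RX.bad x c = RX.ok N' K' G') :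
    c = true ∧ x = RX.ok N' K' G' := by
  cases c
  · exact absurd h (by simp)
  · exact ⟨rfl, h⟩

theorem laneX_mono {x y : ℕ} (h : Sub x y) (l : ℕ) : Sub (laneX x l) (laneX y l) := by
  intro i hi
  rw [tb_lane, Bool.and_eq_true] at hi ⊢
  exact ⟨h _ hi.1, hi.2⟩

theorem evL_spec {off : Cell} (m : ℕ) {N b F A C N' K' G' : ℕ} {s : St}
    {k : ℕ → ℕ → ℕ → ℕ → ℕ → RX} (h : Rep off s b F A)
    (hev : evL m N b F A C k = RX.ok N' K' G') :
    ∃ (N1 b1 F1 A1 C1 : ℕ) (s1 : St), Rep off s1 b1 F1 A1 ∧ Fours s s1 C1 ∧ Sub C C1 ∧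
      k N1 b1 F1 A1 C1 = RX.ok N' K' G' := by
  induction m generalizing N b F A C s with
  | zero => exact ⟨N, b, F, A, C, s, h, Fours.nil s C, Sub.refl C, hev⟩
  | succ m ih =>
    rw [evL_succ] at hev
    obtain ⟨hchk, hev⟩ := rec_bad hev
    have hchk := eq_of_beq hchk
    set c := Nat.mod N 1024 with hcdef
    set t := Nat.mod (Nat.shiftRight N 10) 1024 with htdef
    set A1 := Nat.xor (Nat.lor A (Nat.shiftLeft XT5 c)) (Nat.shiftLeft XT5 c) with hA1
    have hc : c < 1024 := Nat.mod_lt _ (by norm_num)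
    have ht : t < 1024 := Nat.mod_lt _ (by norm_num)
    obtain ⟨h1, h2⟩ := lor_eq_zero hchk
    obtain ⟨h1, h3⟩ := lor_eq_zero h1
    have h1 := eq_of_xor h1
    have e1 := or_add_and F (Nat.shiftLeft 1 c)
    have e2 := or_add_and (Nat.lor F (Nat.shiftLeft 1 c)) (Nat.shiftLeft 1 t)
    have e3 : F + Nat.shiftLeft 1 c + Nat.shiftLeft 1 t =
      (Nat.lor F (Nat.shiftLeft 1 c)) ||| (Nat.shiftLeft 1 t) := h1
    have e4 : F ||| Nat.shiftLeft 1 c = Nat.lor F (Nat.shiftLeft 1 c) := rfl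
    rw [e4] at e1
    have e5 : F &&& Nat.shiftLeft 1 c = 0 := by omega
    have e6 : Nat.lor F (Nat.shiftLeft 1 c) &&& Nat.shiftLeft 1 t = 0 := by omega
    have hfc : isFree s c = true := h.free hc e5
    have hB := h.addB hc hfc
    have hft : isFree (s.addB c) t = true := hB.free ht e6
    have hW := hB.addW ht hft
    have e7 : Nat.add (Nat.lor F (Nat.shiftLeft 1 c)) (Nat.shiftLeft 1 t) =
        Nat.add (Nat.add F (Nat.shiftLeft 1 c)) (Nat.shiftLeft 1 t) := by
      rw [add_bit e5]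
    rw [e7] at hW
    have hic := (isFree_spec hc hfc).1
    have hit := (isFree_spec ht hft).1
    obtain ⟨N1, b1, F1, A2, C1, s1, g1, g2, g3, g4⟩ := ih hW hev
    refine ⟨N1, b1, F1, A2, C1, s1, g1, ?_, g3.of_lor_left, g4⟩
    have hs1 : Sub A1 C1 := g3.of_lor_right
    refine Fours.cons s s1 C1 c t
      (1024 * (Nat.shiftRight N 19 / 2048 % 4) + Nat.mod (Nat.shiftRight N 20) 1024)
      hc ht hfc hft ?_ (hB.no4 h3) ?_ ?_ ?_ hB.n3 g2
    · apply five_of_sub (Nat.mod_lt _ (by norm_num)) (Nat.mod_lt _ (by norm_num))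
      · exact (hB.sub_IM).lor (sub_bit_IM hit)
      · have h4 := sub_of_xor h2
        rw [dShift] at h4
        have h5 : Nat.lor (Nat.lor b (Nat.shiftLeft 1 c)) (Nat.shiftLeft 1 t) =
            Nat.lor XHI (Nat.lor (s.addB c).b (Nat.shiftLeft 1 t)) := by
          rw [hB.b, lor_assoc']
        rw [h5] at h4
        exact h4
    · rw [hB.a1]; exact laneX_mono hs1 1
    · rw [hB.a2]; exact laneX_mono hs1 2
    · rw [hB.a3]; exact laneX_mono hs1 3

theorem evE_spec {off : Cell} {N b F A N' K' G' : ℕ} {s : St} {k : ℕ → ℕ → RX}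
    (h : Rep off s b F A) (hev : evE N b F k = RX.ok N' K' G') :
    ∃ c, Five s c ∧ k (Nat.shiftRight N 22) (Nat.lor F (Nat.shiftLeft 1 c)) = RX.ok N' K' G' := by
  unfold evE at hev
  obtain ⟨hchk, hev⟩ := rec_bad hev
  have hchk := eq_of_beq hchk
  obtain ⟨h1, h2⟩ := lor_eq_zero hchk
  have hc : Nat.mod N 1024 < 1024 := Nat.mod_lt _ (by norm_num)
  have hfc := h.free hc h1
  have hic := (isFree_spec hc hfc).1
  refine ⟨Nat.mod N 1024, ⟨hc, hfc,
    1024 * (Nat.shiftRight N 9 / 2048 % 4) + Nat.mod (Nat.shiftRight N 10) 1024, ?_⟩, hev⟩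
  apply five_of_sub (Nat.mod_lt _ (by norm_num)) (Nat.mod_lt _ (by norm_num))
  · exact h.sub_IM.lor (sub_bit_IM hic)
  · have h4 := sub_of_xor h2
    rw [dShift] at h4
    have h5 : Nat.lor b (Nat.shiftLeft 1 (Nat.mod N 1024)) =
        Nat.lor XHI (Nat.lor s.b (Nat.shiftLeft 1 (Nat.mod N 1024))) := by
      rw [h.b, lor_assoc']
    rw [h5] at h4
    exact h4

/-! ### Open fours -/

theorem idx_eq (n : ℕ) : Nat.land n 7680 = 512 * (n / 512 % 16) := by
  apply Nat.eq_of_testBit_eq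
  intro i
  have h1 : (7680 : ℕ) = (2 ^ 4 - 1) <<< 9 := by decide
  have h2 : 512 * (n / 512 % 16) = ((n >>> 9) % 2 ^ 4) <<< 9 := by
    rw [Nat.shiftLeft_eq, Nat.shiftRight_eq_div_pow, Nat.mul_comm]
    norm_num
  rw [h2, tb_land, h1]
  rw [Nat.testBit_shiftLeft, Nat.testBit_shiftLeft, Nat.testBit_mod_two_pow,
    Nat.testBit_two_pow_sub_one, Nat.testBit_shiftRight]
  by_cases hi : 9 ≤ i
  · rw [show 9 + (i - 9) = i by omega]
    simp [hi, Bool.and_comm]
  · have : ¬ i ≥ 9 := hi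
    simp [this]

def xc0 (i : ℕ) : ℕ := (i % 4 + 1) * delta (i / 4)
def xu0 (i : ℕ) : ℕ := 5 * delta (i / 4)
def xx0 (i : ℕ) : ℕ := cond (Nat.beq (i % 4) 3) (3 * delta (i / 4)) (4 * delta (i / 4))
def xe0 (i : ℕ) : ℕ := Nat.mod (Nat.shiftRight XTAB (512 * i)) X256
def xq0 (i : ℕ) : ℕ := Nat.mod (Nat.shiftRight (Nat.shiftRight XTAB (512 * i)) 256) X256
def xpat (d : ℕ) : ℕ := Nat.land (Nat.shiftRight PP (Nat.mul 160 d)) M160

theorem xtab_e : ∀ i, i < 16 → xe0 i =
    Nat.lor (Nat.lor (Nat.shiftLeft 1 (xc0 i)) (Nat.shiftLeft 1 0)) (Nat.shiftLeft 1 (xu0 i)) := by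
  decide +kernel

theorem xtab_x : ∀ i, i < 16 → (xq0 i).testBit (xx0 i) = true ∧ xu0 i ≤ xx0 i + 66 ∧
    xc0 i < xu0 i ∧ 0 < xc0 i ∧ delta (i / 4) ≤ xc0 i := by
  decide +kernel

theorem xtab_t : ∀ i, i < 16 → Nat.lor (xpat (i / 4))
    (Nat.lor (Nat.lor (xq0 i) (Nat.shiftLeft 1 (xc0 i))) (Nat.shiftLeft 1 0)) =
    (Nat.lor (Nat.lor (xq0 i) (Nat.shiftLeft 1 (xc0 i))) (Nat.shiftLeft 1 0)) := by
  decide +kernel

theorem xtab_u : ∀ i, i < 16 → Nat.lor (Nat.shiftLeft (xpat (i / 4)) (delta (i / 4)))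
    (Nat.lor (Nat.lor (xq0 i) (Nat.shiftLeft 1 (xc0 i))) (Nat.shiftLeft 1 (xu0 i))) =
    (Nat.lor (Nat.lor (xq0 i) (Nat.shiftLeft 1 (xc0 i))) (Nat.shiftLeft 1 (xu0 i))) := by
  decide +kernel

theorem xq_lt : ∀ i, i < 16 → Nat.shiftRight (xq0 i) 256 = 0 := by decide +kernel

theorem sub_of_lor_eq {x y : ℕ} (h : Nat.lor x y = y) : Sub x y := by
  intro i hi
  rw [← h, tb_lor, hi]; rfl

theorem Sub.xshl {x y : ℕ} (h : Sub x y) (n : ℕ) : Sub (Nat.shiftLeft x n) (Nat.shiftLeft y n) := by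
  intro i hi
  rw [tb_shl, Bool.and_eq_true] at hi ⊢
  exact ⟨hi.1, h _ hi.2⟩

theorem shl_lor (x y n : ℕ) : Nat.shiftLeft (Nat.lor x y) n =
    Nat.lor (Nat.shiftLeft x n) (Nat.shiftLeft y n) := by
  apply Nat.eq_of_testBit_eq
  intro i
  rw [tb_lor, tb_shl, tb_shl, tb_shl, tb_lor]
  cases decide (n ≤ i) <;> simp

theorem shl_shl (x m n : ℕ) : Nat.shiftLeft (Nat.shiftLeft x m) n = Nat.shiftLeft x (m + n) := by
  have h1 : (x <<< m) <<< n = x <<< (m + n) := (Nat.shiftLeft_add x m n).symm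
  exact h1

theorem fivePat_eq {d s0 : ℕ} (hs0 : s0 < 1024) :
    fivePat (1024 * d + s0) = Nat.shiftLeft (xpat d) s0 := by
  unfold fivePat xpat
  have e1 : Nat.div (1024 * d + s0) 1024 = d := by
    show (1024 * d + s0) / 1024 = d
    omega
  have e2 : Nat.mod (1024 * d + s0) 1024 = s0 := by
    show (1024 * d + s0) % 1024 = s0
    omega
  rw [e1, e2]

theorem five_of_pat {S k : ℕ} (hk : k < 4096) (hS : Sub S IM) (hp : Sub (fivePat k) S) :
    fiveOK S k = true := by
  unfold fiveOK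
  simp only [Bool.and_eq_true]
  constructor
  · have : Nat.land S (fivePat k) = fivePat k := by
      apply Nat.eq_of_testBit_eq
      intro i
      rw [tb_land]
      cases hi : (fivePat k).testBit i
      · simp
      · rw [hp i hi]; rfl
    rw [this, Nat.beq_refl]
  · exact five_VM hk (fun i hi => hS i (hp i hi))

/-- `K` contains the cells of an open four in one move and `O` is the set of these cells -/
def NullOp (s : St) (K O : ℕ) : Prop :=
  ∃ c t u, OpenF s c t u ∧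
    O = Nat.lor (Nat.lor (Nat.shiftLeft 1 c) (Nat.shiftLeft 1 t)) (Nat.shiftLeft 1 u) ∧ Sub O K

theorem land_bit_of_sub {F e c : ℕ} (h : Nat.land F e = 0) (hs : e.testBit c = true) :
    Nat.land F (Nat.shiftLeft 1 c) = 0 := by
  apply Nat.eq_of_testBit_eq
  intro i
  rw [tb_land, tb_bit, Nat.zero_testBit]
  by_cases hi : c = i
  · subst hi
    have h1 : (Nat.land F e).testBit c = false := by rw [h]; exact Nat.zero_testBit c
    rw [tb_land, hs] at h1
    simpa using h1
  · simp [hi]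

theorem nullOp_of {off : Cell} {s : St} {b F A i s0 K : ℕ} (h : Rep off s b F A) (hi : i < 16)
    (hs0 : s0 < 1024) (h1 : Nat.land F (Nat.shiftLeft (xe0 i) s0) = 0)
    (h2 : Sub (Nat.shiftLeft (xq0 i) s0) b) (hK : Sub (Nat.shiftLeft (xe0 i) s0) K) :
    NullOp s K (Nat.shiftLeft (xe0 i) s0) := by
  obtain ⟨x1, x2, x3, x4, x5⟩ := xtab_x i hi
  have he : Nat.shiftLeft (xe0 i) s0 = Nat.lor (Nat.lor (Nat.shiftLeft 1 (xc0 i + s0))
      (Nat.shiftLeft 1 s0)) (Nat.shiftLeft 1 (xu0 i + s0)) := by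
    rw [xtab_e i hi, shl_lor, shl_lor, shl_shl, shl_shl, shl_shl, Nat.zero_add]
  -- black stones
  have hq : Sub (Nat.shiftLeft (xq0 i) s0) s.b := by
    intro j hj
    have h3 := h2 j hj
    rw [h.b, tb_lor] at h3
    have h4 : j < 2048 := by
      by_contra hne
      rw [tb_shl, Bool.and_eq_true] at hj
      have h5 := congrArg (fun n => n.testBit (j - s0 - 256)) (xq_lt i hi)
      simp only [tb_xshr, Nat.zero_testBit] at h5
      rw [show 256 + (j - s0 - 256) = j - s0 by omega, hj.2] at h5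
      exact absurd h5.symm Bool.false_ne_true
    rw [XHI_low j h4] at h3
    simpa using h3
  have hx : Inner (xx0 i + s0) := by
    apply h.inv.bi
    apply hq
    rw [tb_shl]
    simp [x1]
  have hx1 : xx0 i + s0 ≤ 891 := by unfold Inner at hx; omega
  have hc : xc0 i + s0 < 1024 := by omega
  have hu : xu0 i + s0 < 1024 := by omega
  have bc : (Nat.shiftLeft (xe0 i) s0).testBit (xc0 i + s0) = true := by
    rw [he]; simp only [tb_lor, tb_bit]; simp
  have bt : (Nat.shiftLeft (xe0 i) s0).testBit s0 = true := by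
    rw [he]; simp only [tb_lor, tb_bit]; simp
  have bu : (Nat.shiftLeft (xe0 i) s0).testBit (xu0 i + s0) = true := by
    rw [he]; simp only [tb_lor, tb_bit]; simp
  have fc := h.free hc (land_bit_of_sub h1 bc)
  have ft := h.free hs0 (land_bit_of_sub h1 bt)
  have fu := h.free hu (land_bit_of_sub h1 bu)
  refine ⟨xc0 i + s0, s0, xu0 i + s0, ⟨hc, hs0, hu, fc, ft, fu, by omega, by omega, by omega,
    ⟨1024 * (i / 4) + s0, ?_⟩, ⟨1024 * (i / 4) + (delta (i / 4) + s0), ?_⟩⟩, he, hK⟩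
  · apply five_of_pat (by omega)
    · exact (h.sub_IM.lor (sub_bit_IM (isFree_spec hc fc).1)).lor
        (sub_bit_IM (isFree_spec hs0 ft).1)
    · rw [fivePat_eq hs0]
      refine ((sub_of_lor_eq (xtab_t i hi)).xshl s0).trans ?_
      rw [shl_lor, shl_lor, shl_shl, shl_shl, Nat.zero_add]
      exact ((hq.trans ((sub_lor_left _ _).trans (sub_lor_left _ _))).lor
        ((sub_lor_right _ _).trans (sub_lor_left _ _))).lor (sub_lor_right _ _)
  · apply five_of_pat (by omega)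
    · exact (h.sub_IM.lor (sub_bit_IM (isFree_spec hc fc).1)).lor
        (sub_bit_IM (isFree_spec hu fu).1)
    · rw [fivePat_eq (by omega), ← shl_shl]
      refine ((sub_of_lor_eq (xtab_u i hi)).xshl s0).trans ?_
      rw [shl_lor, shl_lor, shl_shl, shl_shl]
      exact ((hq.trans ((sub_lor_left _ _).trans (sub_lor_left _ _))).lor
        ((sub_lor_right _ _).trans (sub_lor_left _ _))).lor (sub_lor_right _ _)

theorem evO_succ {b F m N E K Z : ℕ} {k : ℕ → ℕ → ℕ → ℕ → RX} :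
    evO b F k (m + 1) N E K Z =
      (fun v s =>
        (fun e q =>
          evO b F k m (Nat.shiftRight N 14) (Nat.land E e) (Nat.lor K e)
            (Nat.lor Z (Nat.lor (Nat.land F e) (Nat.xor (Nat.lor b q) b))))
          (Nat.shiftLeft (Nat.mod v X256) s)
          (Nat.shiftLeft (Nat.mod (Nat.shiftRight v 256) X256) s))
        (Nat.shiftRight XTAB (Nat.land (Nat.shiftRight N 1) 7680))
        (Nat.mod N 1024) := rfl

theorem lor_comm' (x y : ℕ) : Nat.lor x y = Nat.lor y x := by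
  apply Nat.eq_of_testBit_eq
  intro i
  rw [tb_lor, tb_lor, Bool.or_comm]

/-- (the representation is known only when `Z1 = 0`: `Z` starts with the check of the move) -/
theorem evO_spec (m : ℕ) {N b F E K Z N' K' G' : ℕ}
    {k : ℕ → ℕ → ℕ → ℕ → RX}
    (hev : evO b F k m N E K Z = RX.ok N' K' G') :
    ∃ N1 E1 K1 Z1, k N1 E1 K1 Z1 = RX.ok N' K' G' ∧ Sub K K1 ∧ (Z1 = 0 → Z = 0 ∧
      ∀ (off : Cell) (s : St) (A : ℕ), Rep off s b F A →
        (∀ i, E1.testBit i = false → E.testBit i = false ∨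
          ∃ O, NullOp s K1 O ∧ O.testBit i = false) ∧
        (E1 = E ∨ ∃ O, NullOp s K1 O)) := by
  induction m generalizing N E K Z with
  | zero =>
    exact ⟨N, E, K, Z, hev, Sub.refl K, fun hz => ⟨hz, fun off s A _ =>
      ⟨fun i hi => Or.inl hi, Or.inl rfl⟩⟩⟩
  | succ m ih =>
    rw [evO_succ] at hev
    obtain ⟨N1, E1, K1, Z1, h1, h2, h3⟩ := ih hev
    refine ⟨N1, E1, K1, Z1, h1, h2.of_lor_left, fun hz => ?_⟩
    obtain ⟨h4, h5⟩ := h3 hz
    obtain ⟨h4, h6⟩ := lor_eq_zero h4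
    obtain ⟨h6, h7⟩ := lor_eq_zero h6
    refine ⟨h4, fun off s A h => ?_⟩
    rw [lor_comm'] at h7
    have h7 := sub_of_xor h7
    have hO : NullOp s K1 (Nat.shiftLeft (Nat.mod (Nat.shiftRight XTAB
        (Nat.land (Nat.shiftRight N 1) 7680)) X256) (Nat.mod N 1024)) := by
      have h8 := h2.of_lor_right
      rw [idx_eq] at h6 h7 h8 ⊢
      exact nullOp_of h (Nat.mod_lt _ (by norm_num)) (Nat.mod_lt _ (by norm_num)) h6 h7 h8
    obtain ⟨h9, h10⟩ := h5 off s A h
    refine ⟨fun i hi => ?_, ?_⟩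
    · rcases h9 i hi with h11 | h11
      · rw [tb_land, Bool.and_eq_false_iff] at h11
        rcases h11 with h11 | h11
        · exact Or.inl h11
        · exact Or.inr ⟨_, hO, h11⟩
      · exact Or.inr h11
    · exact Or.inr ⟨_, hO⟩

/-! ### Null lines -/

/-- a null line: `O` is the set of the cells where it does not work -/
def NullLn (s : St) (K G O : ℕ) : Prop :=
  ∃ (s1 : St) (C c : ℕ), Fours s s1 C ∧ Five s1 c ∧
    Sub (Nat.lor (Nat.lor s1.b s1.w) (Nat.shiftLeft 1 c)) K ∧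
    Sub (laneX C 1) (gC G) ∧ Sub (laneX C 2) (gE G) ∧
    O = Nat.lor (Nat.lor (Nat.lor s1.b s1.w) (Nat.shiftLeft 1 c))
      (xCells0 (Nat.shiftRight C 12420))

theorem evN_succ {b F A m N U K G : ℕ} {k : ℕ → ℕ → ℕ → ℕ → RX} :
    evN b F A k (m + 1) N U K G =
      evL (Nat.mod N 16) (Nat.shiftRight N 4) b F A 0 fun N' b' F' _ C' =>
        evE N' b' F' fun N'' F'' =>
          evN b F A k m N'' (Nat.land U (Nat.lor (Nat.xor F'' XNIM)
            (xCells0 (Nat.shiftRight C' 12420))))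
            (Nat.lor K F'') (Nat.lor G (Nat.shiftRight C' 4096)) := rfl

theorem xor_nim {off : Cell} {s : St} {b F A c : ℕ} (h : Rep off s b F A) (hc : Inner c) :
    Nat.xor (Nat.lor F (Nat.shiftLeft 1 c)) XNIM =
      Nat.lor (Nat.lor s.b s.w) (Nat.shiftLeft 1 c) := by
  apply Nat.eq_of_testBit_eq
  intro i
  rw [tb_xor, h.F]
  simp only [tb_lor]
  cases hX : XNIM.testBit i
  · simp
  · have hni : ¬ Inner i := fun hi => by rw [inner_xnimL hi] at hX; exact Bool.false_ne_true hX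
    have h1 : s.b.testBit i = false := by
      by_contra hne
      exact hni (h.inv.bi i (by simpa using hne))
    have h2 : s.w.testBit i = false := by
      by_contra hne
      exact hni (h.inv.wi i (by simpa using hne))
    have h3 : (Nat.shiftLeft 1 c).testBit i = false := by
      rw [tb_bit, decide_eq_false_iff_not]
      rintro rfl
      exact hni hc
    rw [h1, h2, h3]
    rfl

theorem laneX_gC {C G : ℕ} (h : Sub (Nat.shiftRight C 4096) G) : Sub (laneX C 1) (gC G) := by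
  intro i hi
  rw [tb_lane, Bool.and_eq_true] at hi
  unfold gC
  rw [tb_land, tb_xshr, tb_XM, Bool.and_eq_true]
  refine ⟨h _ ?_, hi.2⟩
  rw [tb_xshr, show 4096 + (132 + i) = 132 + 4096 * 1 + i by ring]
  exact hi.1

theorem laneX_gE {C G : ℕ} (h : Sub (Nat.shiftRight C 4096) G) : Sub (laneX C 2) (gE G) := by
  intro i hi
  rw [tb_lane, Bool.and_eq_true] at hi
  unfold gE
  rw [tb_land, tb_xshr, tb_XM, Bool.and_eq_true]
  refine ⟨h _ ?_, hi.2⟩
  rw [tb_xshr, show 4096 + (4228 + i) = 132 + 4096 * 2 + i by ring]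
  exact hi.1

theorem evN_spec {off : Cell} (m : ℕ) {N b F A U K G N' K' G' : ℕ} {s : St}
    {k : ℕ → ℕ → ℕ → ℕ → RX} (h : Rep off s b F A)
    (hev : evN b F A k m N U K G = RX.ok N' K' G') :
    ∃ N1 U1 K1 G1, k N1 U1 K1 G1 = RX.ok N' K' G' ∧ Sub K K1 ∧ Sub G G1 ∧
      (∀ i, U1.testBit i = false → U.testBit i = false ∨
        ∃ O, NullLn s K1 G1 O ∧ O.testBit i = false) ∧
      (U1 = U ∨ ∃ O, NullLn s K1 G1 O) := by
  induction m generalizing N U K G with
  | zero => exact ⟨N, U, K, G, hev, Sub.refl K, Sub.refl G, fun i hi => Or.inl hi, Or.inl rfl⟩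
  | succ m ih =>
    rw [evN_succ] at hev
    obtain ⟨N1, b1, F1, A1, C1, s1, g1, g2, g3, g4⟩ := evL_spec _ h hev
    obtain ⟨c, g5, g6⟩ := evE_spec g1 g4
    obtain ⟨N2, U2, K2, G2, h1, h2, h3, h4, h5⟩ := ih g6
    have hic := (isFree_spec g5.1 g5.2.1).1
    have hO : NullLn s K2 G2 (Nat.lor (Nat.xor (Nat.lor F1 (Nat.shiftLeft 1 c)) XNIM)
        (xCells0 (Nat.shiftRight C1 12420))) := by
      rw [xor_nim g1 hic]
      refine ⟨s1, C1, c, g2, g5, ?_, laneX_gC h3.of_lor_right, laneX_gE h3.of_lor_right, rfl⟩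
      refine Sub.trans ?_ h2.of_lor_right
      rw [g1.F, lor_comm3 (Nat.lor s1.b s1.w) XNIM]
      exact sub_lor_left _ _
    refine ⟨N2, U2, K2, G2, h1, h2.of_lor_left, h3.of_lor_left, fun i hi => ?_, ?_⟩
    · rcases h4 i hi with h11 | h11
      · rw [tb_land, Bool.and_eq_false_iff] at h11
        rcases h11 with h11 | h11
        · exact Or.inl h11
        · exact Or.inr ⟨_, hO, h11⟩
      · exact Or.inr h11
    · exact Or.inr ⟨_, hO⟩

/-! ### Stones -/

theorem evW_succ {m N F A Z : ℕ} {k : ℕ → ℕ → ℕ → ℕ → RX} :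
    evW (m + 1) N F A Z k =
      (fun y =>
        evW m (Nat.shiftRight N 10) (Nat.add F (Nat.shiftLeft 1 y))
          (Nat.lor A (Nat.shiftLeft (Nat.land A (Nat.shiftLeft XT4 y)) 4096))
          (Nat.lor Z (Nat.land F (Nat.shiftLeft 1 y))) k)
        (Nat.mod N 1024) := rfl

theorem evW_spec (m : ℕ) {N F A Z N' K' G' : ℕ}
    {k : ℕ → ℕ → ℕ → ℕ → RX}
    (hev : evW m N F A Z k = RX.ok N' K' G') :
    ∃ N1 F1 A1 Z1, k N1 F1 A1 Z1 = RX.ok N' K' G' ∧ (Z1 = 0 → Z = 0 ∧
      ∀ (off : Cell) (s : St) (b : ℕ), Rep off s b F A →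
        ∃ s1 : St, Rep off s1 b F1 A1 ∧ s1.b = s.b ∧ Sub s.w s1.w) := by
  induction m generalizing N F A Z with
  | zero => exact ⟨N, F, A, Z, hev, fun hz => ⟨hz, fun off s b h => ⟨s, h, rfl, Sub.refl _⟩⟩⟩
  | succ m ih =>
    rw [evW_succ] at hev
    obtain ⟨N1, F1, A1, Z1, h1, h2⟩ := ih hev
    refine ⟨N1, F1, A1, Z1, h1, fun hz => ?_⟩
    obtain ⟨h3, h4⟩ := h2 hz
    obtain ⟨h3, h5⟩ := lor_eq_zero h3
    refine ⟨h3, fun off s b h => ?_⟩
    have hy : Nat.mod N 1024 < 1024 := Nat.mod_lt _ (by norm_num)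
    obtain ⟨s1, h6, h7, h8⟩ := h4 off _ b (h.addW hy (h.free hy h5))
    exact ⟨s1, h6, h7, Sub.trans (sub_lor_left _ _) h8⟩

theorem evB_succ {m N F A Z : ℕ} {k : ℕ → ℕ → ℕ → ℕ → RX} :
    evB (m + 1) N F A Z k =
      (fun c =>
        evB m (Nat.shiftRight N 10) (Nat.add F (Nat.shiftLeft 1 c))
          (Nat.xor (Nat.lor A (Nat.shiftLeft XT5 c)) (Nat.shiftLeft XT5 c))
          (Nat.lor Z (Nat.land F (Nat.shiftLeft 1 c))) k)
        (Nat.mod N 1024) := rfl

theorem evB_spec (m : ℕ) {N F A Z N' K' G' : ℕ}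
    {k : ℕ → ℕ → ℕ → ℕ → RX}
    (hev : evB m N F A Z k = RX.ok N' K' G') :
    ∃ N1 F1 A1 Z1, k N1 F1 A1 Z1 = RX.ok N' K' G' ∧ (Z1 = 0 → Z = 0 ∧
      ∀ (off : Cell) (s : St), Rep off s (Nat.lor XHI s.b) F A →
        ∃ s1 : St, Rep off s1 (Nat.lor XHI s1.b) F1 A1 ∧ s1.w = s.w ∧ Sub s.b s1.b) := by
  induction m generalizing N F A Z with
  | zero => exact ⟨N, F, A, Z, hev, fun hz => ⟨hz, fun off s h => ⟨s, h, rfl, Sub.refl _⟩⟩⟩
  | succ m ih =>
    rw [evB_succ] at hev
    obtain ⟨N1, F1, A1, Z1, h1, h2⟩ := ih hev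
    refine ⟨N1, F1, A1, Z1, h1, fun hz => ?_⟩
    obtain ⟨h3, h4⟩ := h2 hz
    obtain ⟨h3, h5⟩ := lor_eq_zero h3
    refine ⟨h3, fun off s h => ?_⟩
    have hy : Nat.mod N 1024 < 1024 := Nat.mod_lt _ (by norm_num)
    have h9 := h.addB hy (h.free hy h5)
    rw [← add_bit h5, lor_assoc'] at h9
    obtain ⟨s1, h6, h7, h8⟩ := h4 off _ h9
    exact ⟨s1, h6, h7, Sub.trans (sub_lor_left _ _) h8⟩

end Pool.Agent.Gomoku
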