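import Pool.Agent.Helper47.Gom4.YSpec

set_option autoImplicit false

namespace Pool.Agent.Gomoku

open Finset

/-! # Module Y1: window masks, tree of pairs -/

theorem Rep.repA {off : Cell} {s : St} {b F A : ℕ} (h : Rep off s b F A) : RepA off s A := by
  unfold RepA
  rw [← h.b, ← h.F]
  exact h

theorem tb_XMs (j : ℕ) : (Nat.shiftLeft XM 132).testBit j = (decide (132 ≤ j) && decide (j < 4228)) := by
  rw [tb_shl, tb_XM]
  by_cases h : 132 ≤ j
  · have : (j - 132 < 4096) ↔ (j < 4228) := by omega
    simp [h, this]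
  · simp [h]

theorem laneX_strip0 {A : ℕ} : laneX (Nat.land A (Nat.shiftLeft XM 132)) 0 = laneX A 0 := by
  apply Nat.eq_of_testBit_eq
  intro i
  rw [tb_lane, tb_lane, tb_land, tb_XMs]
  by_cases hi : i < 4096
  · have h1 : 132 ≤ 132 + 4096 * 0 + i := by omega
    have h2 : 132 + 4096 * 0 + i < 4228 := by omega
    simp [hi, h1, h2]
  · simp [hi]

theorem laneX_strip {A l : ℕ} (hl : 1 ≤ l) : laneX (Nat.land A (Nat.shiftLeft XM 132)) l = 0 := by
  apply Nat.eq_of_testBit_eq
  intro i
  rw [tb_lane, tb_land, tb_XMs, Nat.zero_testBit]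
  have h2 : ¬ (132 + 4096 * l + i < 4228) := by omega
  simp [h2]

theorem repA_strip {off : Cell} {x : St} {A : ℕ} (h : RepA off x A) :
    RepA off (stripA x) (Nat.land A (Nat.shiftLeft XM 132)) := by
  have h0 : dec off 0 = ∅ := dec_zero
  unfold RepA at h
  refine ⟨⟨h.inv.bi, ?_, ?_, h.inv.lv, ?_, ?_, ?_, ?_⟩, rfl, rfl, ?_, ?_, ?_, ?_, ?_, ?_, ?_⟩
  · intro i hi
    have : (0 : ℕ).testBit i = true := hi
    simp at this
  · show Disjoint (dec off x.b) (dec off 0)
    rw [h0]; exact Finset.disjoint_empty_right _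
  · intro k _ _ h1
    have : 1 ≤ (winK off k ∩ dec off 0).card := h1
    rw [h0] at this
    simp at this
  · intro k _ _ h1
    have : 2 ≤ (winK off k ∩ dec off 0).card := h1
    rw [h0] at this
    simp at this
  · intro k _ _ h1
    have : 3 ≤ (winK off k ∩ dec off 0).card := h1
    rw [h0] at this
    simp at this
  · intro k _ _ h1
    have : 4 ≤ (winK off k ∩ dec off 0).card := h1
    rw [h0] at this
    simp at this
  · show x.lv = _
    rw [laneX_strip0]; exact h.lv
  · show 0 = _
    rw [laneX_strip (by norm_num)]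
  · show 0 = _
    rw [laneX_strip (by norm_num)]
  · show 0 = _
    rw [laneX_strip (by norm_num)]
  · show 0 = _
    rw [laneX_strip (by norm_num)]
  · exact Sub.refl 0
  · exact Sub.refl 0

/-! ### Taking white stones out -/

theorem minus_nested {x y t : ℕ} (h : Sub x y) : Sub (minus x t) (minus y t) := h.minus

theorem bool_rem : ∀ u v w : Bool, ((u ^^ (u && v)) || (w && v)) = ((u && !v) || (w && v)) := by
  decide

theorem bool_rem0 : ∀ u v w : Bool, ((u ^^ (u && false)) || (w && v)) = (u || (w && v)) := by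
  decide

/-- the window masks after taking `c` out -/
theorem laneX_rem {A c l : ℕ} (hc : Inner c) (hl1 : 1 ≤ l) (hl : l < 4) :
    laneX (Nat.lor (Nat.xor A (Nat.land A (Nat.shiftLeft XT4 (Nat.add c 4096))))
      (Nat.shiftRight (Nat.land A (Nat.shiftLeft XT4 (Nat.add c 4096))) 4096)) l =
      Nat.lor (minus (laneX A l) (WT c)) (Nat.land (laneX A (l + 1)) (WT c)) := by
  apply Nat.eq_of_testBit_eq
  intro i
  rw [tb_lane, tb_lor, tb_lor, tb_minus, tb_land, tb_xor, tb_xshr, tb_land, tb_land, tb_lane,
    tb_lane]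
  by_cases hi : i < 4096
  · have e1 : (Nat.shiftLeft XT4 (Nat.add c 4096)) = Nat.shiftLeft (Nat.shiftLeft XT4 c) 4096 :=
      (shl_shl XT4 c 4096).symm
    obtain ⟨l', rfl⟩ : ∃ l', l = l' + 1 := ⟨l - 1, by omega⟩
    have e2 : (Nat.shiftLeft XT4 (Nat.add c 4096)).testBit (132 + 4096 * (l' + 1) + i) =
        (WT c).testBit i := by
      rw [e1, tb_shl, show 132 + 4096 * (l' + 1) + i - 4096 = 132 + 4096 * l' + i by omega,
        tb_tab XT4_aux hc (by omega) hi]
      have : 4096 ≤ 132 + 4096 * (l' + 1) + i := by omega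
      simp [this]
    have e3 : (Nat.shiftLeft XT4 (Nat.add c 4096)).testBit (4096 + (132 + 4096 * (l' + 1) + i)) =
        (WT c).testBit i := by
      rw [e1, tb_shl,
        show 4096 + (132 + 4096 * (l' + 1) + i) - 4096 = 132 + 4096 * (l' + 1) + i by omega,
        tb_tab XT4_aux hc (by omega) hi]
      have : 4096 ≤ 4096 + (132 + 4096 * (l' + 1) + i) := by omega
      simp [this]
    rw [e2, e3, show 4096 + (132 + 4096 * (l' + 1) + i) = 132 + 4096 * (l' + 1 + 1) + i by omega]
    simp only [hi, decide_true, Bool.and_true]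
    exact bool_rem _ _ _
  · simp [hi]

theorem laneX_rem0 {A c : ℕ} (hc : Inner c) :
    laneX (Nat.lor (Nat.xor A (Nat.land A (Nat.shiftLeft XT4 (Nat.add c 4096))))
      (Nat.shiftRight (Nat.land A (Nat.shiftLeft XT4 (Nat.add c 4096))) 4096)) 0 =
      Nat.lor (laneX A 0) (Nat.land (laneX A 1) (WT c)) := by
  have hc1 : 132 ≤ c := by unfold Inner at hc; omega
  apply Nat.eq_of_testBit_eq
  intro i
  rw [tb_lane, tb_lor, tb_lor, tb_land, tb_xor, tb_xshr, tb_land, tb_land, tb_lane, tb_lane]
  by_cases hi : i < 4096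
  · have e1 : (Nat.shiftLeft XT4 (Nat.add c 4096)) = Nat.shiftLeft (Nat.shiftLeft XT4 c) 4096 :=
      (shl_shl XT4 c 4096).symm
    have e2 : (Nat.shiftLeft XT4 (Nat.add c 4096)).testBit (132 + 4096 * 0 + i) = false := by
      rw [tb_shl]
      have : ¬ (Nat.add c 4096 ≤ 132 + 4096 * 0 + i) := by
        show ¬ (c + 4096 ≤ _)
        omega
      simp [this]
    have e3 : (Nat.shiftLeft XT4 (Nat.add c 4096)).testBit (4096 + (132 + 4096 * 0 + i)) =
        (WT c).testBit i := by
      rw [e1, tb_shl, show 4096 + (132 + 4096 * 0 + i) - 4096 = 132 + 4096 * 0 + i by omega,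
        tb_tab XT4_aux hc (by omega) hi]
      have : 4096 ≤ 4096 + (132 + 4096 * 0 + i) := by omega
      simp [this]
    rw [e2, e3, show 4096 + (132 + 4096 * 0 + i) = 132 + 4096 * (0 + 1) + i by omega]
    simp only [hi, decide_true, Bool.and_true]
    exact bool_rem0 _ _ _
  · simp [hi]

theorem laneX_rem4 {A c : ℕ} (hc : Inner c)
    (hD : Nat.shiftRight (Nat.land A (Nat.shiftLeft XT4 (Nat.add c 4096))) 16516 = 0) :
    laneX (Nat.lor (Nat.xor A (Nat.land A (Nat.shiftLeft XT4 (Nat.add c 4096))))
      (Nat.shiftRight (Nat.land A (Nat.shiftLeft XT4 (Nat.add c 4096))) 4096)) 4 = laneX A 4 ∧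
    Nat.land (laneX A 4) (WT c) = 0 := by
  have hbit : ∀ j, 16516 ≤ j →
      (Nat.land A (Nat.shiftLeft XT4 (Nat.add c 4096))).testBit j = false := by
    intro j hj
    have h1 : (Nat.shiftRight (Nat.land A (Nat.shiftLeft XT4 (Nat.add c 4096))) 16516).testBit
        (j - 16516) = false := by
      rw [hD]; exact Nat.zero_testBit _
    rwa [tb_xshr, show 16516 + (j - 16516) = j by omega] at h1
  constructor
  · apply Nat.eq_of_testBit_eq
    intro i
    rw [tb_lane, tb_lor, tb_xor, tb_xshr, hbit _ (by omega), hbit _ (by omega), tb_lane]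
    simp
  · apply Nat.eq_of_testBit_eq
    intro i
    rw [tb_land, tb_lane, Nat.zero_testBit]
    by_cases hi : i < 4096
    · have h1 := hbit (132 + 4096 * 4 + i) (by omega)
      have e1 : (Nat.shiftLeft XT4 (Nat.add c 4096)) = Nat.shiftLeft (Nat.shiftLeft XT4 c) 4096 :=
        (shl_shl XT4 c 4096).symm
      rw [tb_land, e1, tb_shl, show 132 + 4096 * 4 + i - 4096 = 132 + 4096 * 3 + i by omega,
        tb_tab XT4_aux hc (by omega) hi] at h1
      have : 4096 ≤ 132 + 4096 * 4 + i := by omega
      simp only [this, decide_true, Bool.true_and] at h1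
      simp only [hi, decide_true, Bool.and_true]
      exact h1
    · simp [hi]

/-- the state without the white stone `c` -/
def remSt (x : St) (c A1 : ℕ) : St :=
  ⟨x.b, minus x.w (Nat.shiftLeft 1 c), laneX A1 0, laneX A1 1, laneX A1 2, laneX A1 3, laneX A1 4⟩

theorem dec_minus_bit {off : Cell} {n c : ℕ} (hc : c < 1024) :
    dec off (minus n (Nat.shiftLeft 1 c)) = (dec off n).erase (cellOf off c) := by
  ext d
  rw [Finset.mem_erase, mem_dec, mem_dec]
  constructor
  · rintro ⟨i, hi, h1, rfl⟩
    rw [tb_minus, tb_bit, Bool.and_eq_true] at h1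
    refine ⟨fun he => ?_, i, hi, h1.1, rfl⟩
    have := cellOf_inj hi hc he
    subst this
    simp at h1
  · rintro ⟨hne, i, hi, h1, rfl⟩
    refine ⟨i, hi, ?_, rfl⟩
    rw [tb_minus, tb_bit, h1]
    by_cases he : c = i
    · subst he; exact absurd rfl hne
    · simp [he]

theorem repA_rem {off : Cell} {x : St} {A c : ℕ} (h : RepA off x A) (hc : c < 1024)
    (hw : x.w.testBit c = true)
    (hD : Nat.shiftRight (Nat.land A (Nat.shiftLeft XT4 (Nat.add c 4096))) 16516 = 0) :
    RepA off (remSt x c (Nat.lor (Nat.xor A (Nat.land A (Nat.shiftLeft XT4 (Nat.add c 4096))))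
      (Nat.shiftRight (Nat.land A (Nat.shiftLeft XT4 (Nat.add c 4096))) 4096)))
      (Nat.lor (Nat.xor A (Nat.land A (Nat.shiftLeft XT4 (Nat.add c 4096))))
      (Nat.shiftRight (Nat.land A (Nat.shiftLeft XT4 (Nat.add c 4096))) 4096)) := by
  unfold RepA at h
  have hin : Inner c := h.inv.wi c hw
  obtain ⟨r4, z4⟩ := laneX_rem4 hin hD
  have r0 := laneX_rem0 (A := A) hin
  have r1 := laneX_rem (A := A) (l := 1) hin (by norm_num) (by norm_num)
  have r2 := laneX_rem (A := A) (l := 2) hin (by norm_num) (by norm_num)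
  have r3 := laneX_rem (A := A) (l := 3) hin (by norm_num) (by norm_num)
  rw [← h.lv, ← h.a1] at r0
  rw [← h.a1, ← h.a2] at r1
  rw [← h.a2, ← h.a3] at r2
  rw [← h.a3, ← h.a4] at r3
  rw [← h.a4] at r4 z4
  set A1 := Nat.lor (Nat.xor A (Nat.land A (Nat.shiftLeft XT4 (Nat.add c 4096))))
      (Nat.shiftRight (Nat.land A (Nat.shiftLeft XT4 (Nat.add c 4096))) 4096) with hA1
  have hmem : cellOf off c ∈ dec off x.w := (cellOf_mem_dec hc).2 hw
  have hdec : dec off (remSt x c A1).w = (dec off x.w).erase (cellOf off c) := dec_minus_bit hc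
  -- counting
  have hcin : ∀ k, cellOf off c ∈ winK off k →
      (winK off k ∩ dec off x.w).card = (winK off k ∩ dec off (remSt x c A1).w).card + 1 := by
    intro k hk
    rw [hdec, Finset.inter_erase, Finset.card_erase_add_one]
    exact Finset.mem_inter.2 ⟨hk, hmem⟩
  have hcout : ∀ k, cellOf off c ∉ winK off k →
      (winK off k ∩ dec off x.w).card = (winK off k ∩ dec off (remSt x c A1).w).card := by
    intro k hk
    rw [hdec, Finset.inter_erase, Finset.erase_eq_of_notMem]
    exact fun hm => hk (Finset.mem_inter.1 hm).1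
  have key : ∀ (a a' : ℕ) (j k : ℕ), VM.testBit k = true →
      (j ≤ (winK off k ∩ dec off x.w).card → a.testBit k = true) →
      (j + 1 ≤ (winK off k ∩ dec off x.w).card → a'.testBit k = true) →
      j ≤ (winK off k ∩ dec off (remSt x c A1).w).card →
      (Nat.lor (minus a (WT c)) (Nat.land a' (WT c))).testBit k = true := by
    intro a a' j k hk h1 h2 h3
    rw [tb_lor, tb_minus, tb_land]
    by_cases hck : cellOf off c ∈ winK off k
    · rw [(testBit_WT hin hk).2 hck, h2 (by rw [hcin k hck]; omega)]
      simp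
    · have hWT : (WT c).testBit k = false := by
        by_contra hne
        exact hck ((testBit_WT hin hk).1 (by simpa using hne))
      rw [hWT, h1 (by rw [hcout k hck]; exact h3)]
      rfl
  have hws : ∀ i, (remSt x c A1).w.testBit i = true → x.w.testBit i = true := by
    intro i hi
    have h1 : (minus x.w (Nat.shiftLeft 1 c)).testBit i = true := hi
    rw [tb_minus, Bool.and_eq_true] at h1
    exact h1.1
  have hSub : Sub (remSt x c A1).w x.w := hws
  refine ⟨⟨h.inv.bi, fun i hi => h.inv.wi i (hws i hi), ?_, ?_, ?_, ?_, ?_, ?_⟩, rfl, rfl, rfl, rfl,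
    rfl, rfl, rfl, ?_, ?_⟩
  · show Disjoint (dec off x.b) (dec off (remSt x c A1).w)
    exact Finset.disjoint_of_subset_right (hSub.dec off) h.inv.disj
  · intro k hk hd
    show (laneX A1 0).testBit k = true
    rw [r0, tb_lor, h.inv.lv k hk hd]
    rfl
  · intro k hk hd hj
    show (laneX A1 1).testBit k = true
    rw [r1]
    exact key _ _ 1 k hk (h.inv.a1 k hk hd) (h.inv.a2 k hk hd) hj
  · intro k hk hd hj
    show (laneX A1 2).testBit k = true
    rw [r2]
    exact key _ _ 2 k hk (h.inv.a2 k hk hd) (h.inv.a3 k hk hd) hj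
  · intro k hk hd hj
    show (laneX A1 3).testBit k = true
    rw [r3]
    exact key _ _ 3 k hk (h.inv.a3 k hk hd) (h.inv.a4 k hk hd) hj
  · intro k hk hd hj
    show (laneX A1 4).testBit k = true
    rw [r4]
    by_cases hck : cellOf off c ∈ winK off k
    · exfalso
      have h5 := h.inv.a4 k hk hd (by rw [hcin k hck]; omega)
      have h6 : (Nat.land x.a4 (WT c)).testBit k = true := by
        rw [tb_land, h5, (testBit_WT hin hk).2 hck]; rfl
      rw [z4, Nat.zero_testBit] at h6
      exact Bool.false_ne_true h6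
    · exact h.inv.a4 k hk hd (by rw [hcout k hck]; exact hj)
  · show Sub (laneX A1 2) (laneX A1 1)
    rw [r1, r2]
    refine Sub.lor (h.n2.minus.trans (sub_lor_left _ _)) ?_
    intro i hi
    rw [tb_land, Bool.and_eq_true] at hi
    rw [tb_lor, tb_land, h.n3 i hi.1, hi.2]
    simp
  · show Sub (laneX A1 3) (laneX A1 2)
    rw [r2, r3]
    refine Sub.lor (h.n3.minus.trans (sub_lor_left _ _)) ?_
    rw [z4]
    intro i hi
    simp at hi

theorem yRem_succ {m N A R Z : ℕ} {k : ℕ → ℕ → ℕ → RX} :
    yRem (m + 1) N A R Z k =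
      (fun c =>
        (fun bc D =>
          yRem m (Nat.shiftRight N 10) (Nat.lor (Nat.xor A D) (Nat.shiftRight D 4096))
            (Nat.xor R bc)
            (Nat.lor Z (Nat.lor (Nat.xor (Nat.land R bc) bc) (Nat.shiftRight D 16516))) k)
          (Nat.shiftLeft 1 c) (Nat.land A (Nat.shiftLeft XT4 (Nat.add c 4096))))
        (Nat.mod N 1024) := rfl

theorem yRem_spec {off : Cell} (m : ℕ) {N A R Z N' K' G' : ℕ} {k : ℕ → ℕ → ℕ → RX}
    (h : yRem m N A R Z k = RX.ok N' K' G') :
    ∃ N1 A1 Z1, k N1 A1 Z1 = RX.ok N' K' G' ∧ (Z1 = 0 → Z = 0 ∧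
      ∀ x : St, RepA off x A → Sub R x.w → ∃ x1 : St, RepA off x1 A1 ∧ x1.b = x.b ∧ Sub x1.w x.w ∧
        ∀ i, x.w.testBit i = true → R.testBit i = false → x1.w.testBit i = true) := by
  induction m generalizing N A R Z with
  | zero =>
    exact ⟨N, A, Z, h, fun hz => ⟨hz, fun x hx _ => ⟨x, hx, rfl, Sub.refl _, fun i hi _ => hi⟩⟩⟩
  | succ m ih =>
    rw [yRem_succ] at h
    simp only at h
    set c := Nat.mod N 1024 with hcdef
    have hc : c < 1024 := Nat.mod_lt _ (by norm_num)
    obtain ⟨N1, A1, Z1, h1, h2⟩ := ih h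
    refine ⟨N1, A1, Z1, h1, fun hz => ?_⟩
    obtain ⟨h3, h4⟩ := h2 hz
    obtain ⟨hZ, h3⟩ := lor_eq_zero h3
    obtain ⟨h5, h6⟩ := lor_eq_zero h3
    refine ⟨hZ, fun x hx hR => ?_⟩
    have hRc : R.testBit c = true := by
      have e1 := eq_of_xor h5
      have e2 : (Nat.land R (Nat.shiftLeft 1 c)).testBit c = true := by
        rw [e1, tb_bit]; simp
      rw [tb_land, Bool.and_eq_true] at e2
      exact e2.1
    have hrep := repA_rem hx hc (hR c hRc) h6
    obtain ⟨x1, g1, g2, g3, g4⟩ := h4 _ hrep (by
      intro i hi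
      rw [tb_xor, tb_bit] at hi
      show (minus x.w (Nat.shiftLeft 1 c)).testBit i = true
      rw [tb_minus, tb_bit]
      by_cases hci : c = i
      · subst hci
        rw [hRc] at hi
        simp at hi
      · simp only [hci, decide_false, Bool.xor_false] at hi
        rw [hR i hi]
        simp [hci])
    refine ⟨x1, g1, g2, fun i hi => ?_, fun i hi hRi => ?_⟩
    · have h7 : (minus x.w (Nat.shiftLeft 1 c)).testBit i = true := g3 i hi
      rw [tb_minus, Bool.and_eq_true] at h7
      exact h7.1
    · have hci : ¬ (c = i) := by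
        intro he
        subst he
        rw [hRc] at hRi
        exact absurd hRi (by simp)
      apply g4 i
      · show (minus x.w (Nat.shiftLeft 1 c)).testBit i = true
        rw [tb_minus, tb_bit, hi]
        simp [hci]
      · rw [tb_xor, tb_bit, hRi]
        simp [hci]

/-! ### Putting white stones in -/

theorem isFree_of {x : St} {c : ℕ} (hin : Inner c) (hb : x.b.testBit c = false)
    (hw : x.w.testBit c = false) : isFree x c = true := by
  unfold isFree
  have : Nat.land (Nat.lor (Nat.lor x.b x.w) NIM) (Nat.shiftLeft 1 c) = 0 := by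
    apply Nat.eq_of_testBit_eq
    intro i
    rw [tb_land, tb_lor, tb_lor, tb_bit, Nat.zero_testBit]
    by_cases hci : c = i
    · subst hci
      have h1 : NIM.testBit c = false := by rw [← XNIM_eq]; exact inner_xnimL hin
      rw [hb, hw, h1]
      rfl
    · simp [hci]
  rw [this]
  rfl

theorem yAdd_succ {m N A X Z : ℕ} {k : ℕ → ℕ → ℕ → RX} :
    yAdd (m + 1) N A X Z k =
      (fun c =>
        (fun bc =>
          yAdd m (Nat.shiftRight N 10)
            (Nat.lor A (Nat.shiftLeft (Nat.land A (Nat.shiftLeft XT4 c)) 4096)) (Nat.xor X bc)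
            (Nat.lor Z (Nat.xor (Nat.land X bc) bc)) k)
          (Nat.shiftLeft 1 c))
        (Nat.mod N 1024) := rfl

theorem yAdd_spec {off : Cell} (n : ℕ) {N A X Z N' K' G' : ℕ} {k : ℕ → ℕ → ℕ → RX}
    (h : yAdd n N A X Z k = RX.ok N' K' G') :
    ∃ N1 A1 Z1, k N1 A1 Z1 = RX.ok N' K' G' ∧ (Z1 = 0 → Z = 0 ∧
      ∀ x : St, RepA off x A →
        (∀ i, X.testBit i = true → Inner i ∧ x.b.testBit i = false ∧ x.w.testBit i = false) →
        ∃ x1 : St, RepA off x1 A1 ∧ x1.b = x.b ∧ x1.w = Nat.lor x.w X) := by
  induction n generalizing N A X Z with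
  | zero =>
    refine ⟨N, A, Nat.lor X Z, h, fun hz => ?_⟩
    obtain ⟨h1, h2⟩ := lor_eq_zero hz
    refine ⟨h2, fun x hx _ => ⟨x, hx, rfl, ?_⟩⟩
    rw [h1]
    exact (Nat.or_zero x.w).symm
  | succ n ih =>
    rw [yAdd_succ] at h
    simp only at h
    set c := Nat.mod N 1024 with hcdef
    obtain ⟨N1, A1, Z1, h1, h2⟩ := ih h
    refine ⟨N1, A1, Z1, h1, fun hz => ?_⟩
    obtain ⟨h3, h4⟩ := h2 hz
    obtain ⟨hZ, h5⟩ := lor_eq_zero h3
    refine ⟨hZ, fun x hx hX => ?_⟩
    have hXc : X.testBit c = true := by
      have e1 := eq_of_xor h5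
      have e2 : (Nat.land X (Nat.shiftLeft 1 c)).testBit c = true := by
        rw [e1, tb_bit]; simp
      rw [tb_land, Bool.and_eq_true] at e2
      exact e2.1
    obtain ⟨hin, hbc, hwc⟩ := hX c hXc
    have hc := inner_lt hin
    have hfree := isFree_of hin hbc hwc
    have hrep : RepA off (x.addW c)
        (Nat.lor A (Nat.shiftLeft (Nat.land A (Nat.shiftLeft XT4 c)) 4096)) := by
      unfold RepA at hx
      exact (hx.addW hc hfree).repA
    obtain ⟨x1, g2, g3, g4⟩ := h4 (x.addW c) hrep (by
      intro i hi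
      rw [tb_xor, tb_bit] at hi
      have hci : ¬ (c = i) := by
        intro he
        subst he
        rw [hXc] at hi
        simp at hi
      simp only [hci, decide_false, Bool.xor_false] at hi
      obtain ⟨k1, k2, k3⟩ := hX i hi
      refine ⟨k1, k2, ?_⟩
      show (Nat.lor x.w (Nat.shiftLeft 1 c)).testBit i = false
      rw [tb_lor, tb_bit, k3]
      simp [hci])
    refine ⟨x1, g2, g3, ?_⟩
    rw [g4]
    apply Nat.eq_of_testBit_eq
    intro i
    show (Nat.lor (Nat.lor x.w (Nat.shiftLeft 1 c)) (Nat.xor X (Nat.shiftLeft 1 c))).testBit i = _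
    rw [tb_lor, tb_lor, tb_lor, tb_xor, tb_bit]
    by_cases hci : c = i
    · subst hci
      rw [hXc]; simp
    · simp [hci]

/-! ### Caps from masks -/

theorem cap_ok {off : Cell} {x : St} (hI : Inv off x) {C1 : ℕ} {L X : Finset Cell} (hL : IsLine L)
    (hd : Disjoint L (dec off x.b)) (hX : X ⊆ dec off x.w)
    (h2 : ∀ k, VM.testBit k = true → L = winK off k → C1.testBit k = true →
      x.a2.testBit k = false)
    (h3 : ∀ k, VM.testBit k = true → L = winK off k → x.a3.testBit k = false) :
    (L ∩ X).card ≤ capV off true C1 L := by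
  have hle : (L ∩ X).card ≤ (L ∩ dec off x.w).card :=
    Finset.card_le_card (Finset.inter_subset_inter_left hX)
  by_cases hm : InMask off C1 L
  · have hc : capV off true C1 L = 1 := by
      unfold capV
      rw [if_pos rfl, capOf_le_of_c1 hm]
    rw [hc]
    by_contra hne
    obtain ⟨k, hk, hC, rfl⟩ := hm
    have h4 := hI.a2 k hk hd (by omega)
    rw [h2 k hk rfl hC] at h4
    exact Bool.false_ne_true h4
  · have hc : capV off true C1 L = 2 := by
      unfold capV capOf
      rw [if_pos rfl, if_neg hm]
      split_ifs <;> rfl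
    rw [hc]
    by_contra hne
    obtain ⟨k, hk, rfl⟩ := hI.window hL (by omega)
    have h4 := hI.a3 k hk hd (by omega)
    rw [h3 k hk rfl] at h4
    exact Bool.false_ne_true h4

theorem cap_ok_succ {off : Cell} {x : St} (hI : Inv off x) {C1 : ℕ} {L X : Finset Cell}
    (hL : IsLine L) (hd : Disjoint L (dec off x.b)) (hX : X ⊆ dec off x.w)
    (h1 : ∀ k, VM.testBit k = true → L = winK off k → C1.testBit k = true →
      x.a1.testBit k = false)
    (h2 : ∀ k, VM.testBit k = true → L = winK off k → x.a2.testBit k = false) :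
    (L ∩ X).card + 1 ≤ capV off true C1 L := by
  have hle : (L ∩ X).card ≤ (L ∩ dec off x.w).card :=
    Finset.card_le_card (Finset.inter_subset_inter_left hX)
  by_cases hm : InMask off C1 L
  · have hc : capV off true C1 L = 1 := by
      unfold capV
      rw [if_pos rfl, capOf_le_of_c1 hm]
    rw [hc]
    by_contra hne
    obtain ⟨k, hk, hC, rfl⟩ := hm
    have h4 := hI.a1 k hk hd (by omega)
    rw [h1 k hk rfl hC] at h4
    exact Bool.false_ne_true h4
  · have hc : capV off true C1 L = 2 := by
      unfold capV capOf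
      rw [if_pos rfl, if_neg hm]
      split_ifs <;> rfl
    rw [hc]
    by_contra hne
    obtain ⟨k, hk, rfl⟩ := hI.window hL (by omega)
    have h4 := hI.a2 k hk hd (by omega)
    rw [h2 k hk rfl] at h4
    exact Bool.false_ne_true h4

theorem card_insert_inter_le {L w W : Finset Cell} {y : Cell} :
    (L ∩ (insert y w \ W)).card ≤ (L ∩ (w \ W)).card + 1 := by
  have : L ∩ (insert y w \ W) ⊆ insert y (L ∩ (w \ W)) := by
    intro c hc
    simp only [Finset.mem_inter, Finset.mem_sdiff, Finset.mem_insert] at hc ⊢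
    tauto
  exact (Finset.card_le_card this).trans (Finset.card_insert_le _ _)

theorem inter_insert_eq {L w W : Finset Cell} {y : Cell} (hy : y ∉ L) :
    L ∩ (insert y w \ W) = L ∩ (w \ W) := by
  ext c
  simp only [Finset.mem_inter, Finset.mem_sdiff, Finset.mem_insert]
  constructor
  · rintro ⟨h1, h2 | h2, h3⟩
    · subst h2; exact absurd h1 hy
    · exact ⟨h1, h2, h3⟩
  · rintro ⟨h1, h2, h3⟩
    exact ⟨h1, Or.inr h2, h3⟩

/-- both bounds from the masks `V` and `E` -/
theorem yV_bit {A C1 k : ℕ} (_hk : k < 4096)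
    (h : (Nat.lor (Nat.land (Nat.shiftRight A 8324) C1) (Nat.shiftRight A 12420)).testBit k =
      false) :
    (C1.testBit k = true → (laneX A 2).testBit k = false) ∧ (laneX A 3).testBit k = false := by
  rw [tb_lor, tb_land, tb_xshr, tb_xshr, Bool.or_eq_false_iff, Bool.and_eq_false_iff] at h
  obtain ⟨h1, h2⟩ := h
  constructor
  · intro hC
    rw [tb_lane]
    rcases h1 with h1 | h1
    · rw [show 132 + 4096 * 2 + k = 8324 + k by omega, h1]; rfl
    · rw [hC] at h1; exact absurd h1 (by simp)
  · rw [tb_lane, show 132 + 4096 * 3 + k = 12420 + k by omega, h2]; rfl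

theorem yE_bit {A C1 k : ℕ} (_hk : k < 4096)
    (h : (Nat.lor (Nat.land (Nat.shiftRight A 4228) C1) (Nat.shiftRight A 8324)).testBit k =
      false) :
    (C1.testBit k = true → (laneX A 1).testBit k = false) ∧ (laneX A 2).testBit k = false := by
  rw [tb_lor, tb_land, tb_xshr, tb_xshr, Bool.or_eq_false_iff, Bool.and_eq_false_iff] at h
  obtain ⟨h1, h2⟩ := h
  constructor
  · intro hC
    rw [tb_lane]
    rcases h1 with h1 | h1
    · rw [show 132 + 4096 * 1 + k = 4228 + k by omega, h1]; rfl
    · rw [hC] at h1; exact absurd h1 (by simp)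
  · rw [tb_lane, show 132 + 4096 * 2 + k = 8324 + k by omega, h2]; rfl

theorem yBoth_bit {p q k : ℕ} (hp : Inner p) (hq : Inner q) (hk : k < 4096) :
    (Nat.shiftRight (Nat.land (Nat.shiftLeft XT5 p) (Nat.shiftLeft XT5 q)) 132).testBit k =
      ((WT p).testBit k && (WT q).testBit k) := by
  have h1 := tb_tab XT5_aux (l := 0) hp (by norm_num) hk
  have h2 := tb_tab XT5_aux (l := 0) hq (by norm_num) hk
  rw [tb_xshr, tb_land, show 132 + k = 132 + 4096 * 0 + k by omega, h1, h2]

theorem not_bit_of_cells {off : Cell} {E k : ℕ} {y : Cell} (hk : VM.testBit k = true)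
    (hy : y ∈ winK off k) (hE : y ∉ dec off (xCells E)) : E.testBit k = false := by
  have e : xCells E = cellsOf E := by
    unfold xCells cellsOf
    rw [XFM_eq]
    rfl
  rw [e] at hE
  by_contra hne
  exact hE (winK_subset_cellsOf hk (by simpa using hne) hy)

/-! ### The tree of pairs -/

theorem yT_succ {C1 d N A O E Q : ℕ} {k : ℕ → ℕ → ℕ → RX} :
    yT C1 (d + 1) N A O E Q k =
      (fun V E0 =>
        Bool.rec (motive := fun _ => RX)
          ((fun p q =>
            (fun bp bq both =>
              Bool.rec (motive := fun _ => RX) RX.bad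
                ((fun Ap Aq O' =>
                  yT C1 d (Nat.shiftRight N 21)
                    (Nat.lor Aq (Nat.shiftLeft (Nat.land Aq (Nat.shiftLeft XT4 p)) 4096)) O'
                    (Nat.lor E (Nat.xor (Nat.lor E0 both) both)) (Nat.lor Q (Nat.lor bp bq))
                    fun N1 E1 Q1 =>
                      yT C1 d N1
                        (Nat.lor Ap (Nat.shiftLeft (Nat.land Ap (Nat.shiftLeft XT4 q)) 4096)) O'
                        E1 Q1 k)
                  (Nat.xor (Nat.lor A (Nat.shiftLeft XT5 p)) (Nat.shiftLeft XT5 p))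
                  (Nat.xor (Nat.lor A (Nat.shiftLeft XT5 q)) (Nat.shiftLeft XT5 q))
                  (Nat.lor O (Nat.lor bp bq)))
                (Nat.beq (Nat.lor (Nat.lor (Nat.land O (Nat.lor bp bq)) (Nat.land bp bq))
                  (Nat.xor (Nat.lor V both) both)) 0))
              (Nat.shiftLeft 1 p) (Nat.shiftLeft 1 q)
              (Nat.shiftRight (Nat.land (Nat.shiftLeft XT5 p) (Nat.shiftLeft XT5 q)) 132))
            (Nat.mod (Nat.shiftRight N 1) 1024) (Nat.mod (Nat.shiftRight N 11) 1024))
          (Bool.rec (motive := fun _ => RX) RX.bad (k (Nat.shiftRight N 1) (Nat.lor E E0) Q)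
            (Nat.beq V 0))
          (Nat.beq (Nat.mod N 2) 0))
        (Nat.lor (Nat.land (Nat.shiftRight A 8324) C1) (Nat.shiftRight A 12420))
        (Nat.lor (Nat.land (Nat.shiftRight A 4228) C1) (Nat.shiftRight A 8324)) := rfl

theorem bit_of_land_zero {O c : ℕ} (h : Nat.land O (Nat.shiftLeft 1 c) = 0) :
    O.testBit c = false := by
  have h1 : (Nat.land O (Nat.shiftLeft 1 c)).testBit c = false := by
    rw [h]; exact Nat.zero_testBit c
  rw [tb_land, tb_bit] at h1
  simpa using h1

theorem land_lor_zero {O x y : ℕ} (h : Nat.land O (Nat.lor x y) = 0) :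
    Nat.land O x = 0 ∧ Nat.land O y = 0 := by
  constructor
  · apply Nat.eq_of_testBit_eq
    intro i
    have h1 : (Nat.land O (Nat.lor x y)).testBit i = false := by rw [h]; exact Nat.zero_testBit i
    rw [tb_land, tb_lor] at h1
    rw [tb_land, Nat.zero_testBit]
    revert h1
    cases O.testBit i <;> cases x.testBit i <;> cases y.testBit i <;> decide
  · apply Nat.eq_of_testBit_eq
    intro i
    have h1 : (Nat.land O (Nat.lor x y)).testBit i = false := by rw [h]; exact Nat.zero_testBit i
    rw [tb_land, tb_lor] at h1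
    rw [tb_land, Nat.zero_testBit]
    revert h1
    cases O.testBit i <;> cases x.testBit i <;> cases y.testBit i <;> decide

theorem yT_spec {off : Cell} {C1 : ℕ} (d : ℕ) {N A O E Q N' K' G' : ℕ} {k : ℕ → ℕ → ℕ → RX}
    (h : yT C1 d N A O E Q k = RX.ok N' K' G') {x : St} (hx : RepA off x A)
    (hxO : Sub (Nat.lor x.b x.w) O) (hN : Sub XNIM O) {B W K b w : Finset Cell}
    (hb : b = dec off x.b) (hw : w \ W ⊆ dec off x.w) (hwO : w ⊆ dec off O) (hKO : K ⊆ dec off O)
    (hB : B ⊆ b) (hbw : Disjoint b w) (hwK : Disjoint (w \ W) K) :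
    ∃ N1 E1 Q1 P, k N1 E1 Q1 = RX.ok N' K' G' ∧ Sub E E1 ∧ Sub Q Q1 ∧
      Ctx3 B W K (capV off true C1) P b w ∧
      ∀ y, y ∉ b → y ∉ w → y ∉ K → y ∉ dec off Q1 → y ∉ dec off (xCells E1) →
        Ctx3 B W K (capV off true C1) P b (insert y w) := by
  induction d generalizing N A O E Q k x b w with
  | zero =>
    have h' : RX.bad = RX.ok N' K' G' := h
    exact absurd h' (by simp)
  | succ d ih =>
    rw [yT_succ] at h
    simp only at h
    set V := Nat.lor (Nat.land (Nat.shiftRight A 8324) C1) (Nat.shiftRight A 12420) with hV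
    set E0 := Nat.lor (Nat.land (Nat.shiftRight A 4228) C1) (Nat.shiftRight A 8324) with hE0
    have hRep : Rep off x (Nat.lor XHI x.b) (Nat.lor (Nat.lor x.b x.w) XNIM) A := hx
    have hI : Inv off x := hRep.inv
    -- the basic part after a further white stone
    have hbasic : ∀ y, y ∉ b → y ∉ K → B ⊆ b ∧ Disjoint b (insert y w) ∧
        Disjoint (insert y w \ W) K := by
      intro y hyb hyK
      refine ⟨hB, ?_, ?_⟩
      · rw [Finset.disjoint_insert_right]; exact ⟨hyb, hbw⟩
      · rw [Finset.disjoint_left]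
        intro c hc hcK
        rw [Finset.mem_sdiff, Finset.mem_insert] at hc
        rcases hc.1 with rfl | hc1
        · exact hyK hcK
        · exact Finset.disjoint_left.1 hwK (Finset.mem_sdiff.2 ⟨hc1, hc.2⟩) hcK
    by_cases hpar : Nat.mod N 2 = 0
    · -- no pair
      have hb1 : Nat.beq (Nat.mod N 2) 0 = true := by rw [hpar]; rfl
      rw [hb1] at h
      simp only at h
      obtain ⟨hV0, h⟩ := rec_bad h
      have hV0 := eq_of_beq hV0
      have hVbit : ∀ k, VM.testBit k = true → (C1.testBit k = true → x.a2.testBit k = false) ∧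
          x.a3.testBit k = false := by
        intro k hk
        rw [hRep.a2, hRep.a3]
        exact yV_bit (VM_lt hk) (by rw [← hV, hV0]; exact Nat.zero_testBit k)
      have hcap : CapOK (capV off true C1) (w \ W) b := by
        intro L hL hd
        rw [hb] at hd
        exact cap_ok hI hL hd hw (fun k hk _ hC => (hVbit k hk).1 hC) fun k hk _ => (hVbit k hk).2
      refine ⟨_, _, _, PT.none, h, sub_lor_left _ _, Sub.refl _, ⟨hB, hbw, hwK, hcap⟩, ?_⟩
      intro y hyb hyw hyK _ hyE
      obtain ⟨g1, g2, g3⟩ := hbasic y hyb hyK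
      refine ⟨g1, g2, g3, fun L hL hd => ?_⟩
      by_cases hyL : y ∈ L
      · have hEbit : ∀ k, VM.testBit k = true → L = winK off k →
            (C1.testBit k = true → x.a1.testBit k = false) ∧ x.a2.testBit k = false := by
          intro k hk hLk
          have h5 := not_bit_of_cells hk (by rw [← hLk]; exact hyL) hyE
          rw [tb_lor, Bool.or_eq_false_iff] at h5
          rw [hRep.a1, hRep.a2]
          exact yE_bit (VM_lt hk) h5.2
        refine card_insert_inter_le.trans ?_
        rw [hb] at hd
        exact cap_ok_succ hI hL hd hw (fun k hk hLk hC => (hEbit k hk hLk).1 hC)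
          fun k hk hLk => (hEbit k hk hLk).2
      · rw [inter_insert_eq hyL]
        exact hcap L hL hd
    · -- a pair
      have hb1 : Nat.beq (Nat.mod N 2) 0 = false := by
        cases hb : Nat.beq (Nat.mod N 2) 0
        · rfl
        · exact absurd (eq_of_beq hb) hpar
      rw [hb1] at h
      simp only at h
      set p := Nat.mod (Nat.shiftRight N 1) 1024 with hpdef
      set q := Nat.mod (Nat.shiftRight N 11) 1024 with hqdef
      have hp : p < 1024 := Nat.mod_lt _ (by norm_num)
      have hq : q < 1024 := Nat.mod_lt _ (by norm_num)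
      obtain ⟨hchk, h⟩ := rec_bad h
      have hchk := eq_of_beq hchk
      obtain ⟨h1, h2⟩ := lor_eq_zero hchk
      obtain ⟨h1, h3⟩ := lor_eq_zero h1
      obtain ⟨hOp, hOq⟩ := land_lor_zero h1
      have hOp := bit_of_land_zero hOp
      have hOq := bit_of_land_zero hOq
      have hpq : p ≠ q := by
        intro he
        rw [← he] at h3
        have := bit_of_land_zero h3
        rw [tb_bit] at this
        simp at this
      -- the two cells are inner and free
      have hfree : ∀ c, c < 1024 → O.testBit c = false → Inner c ∧ x.b.testBit c = false ∧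
          x.w.testBit c = false := by
        intro c hc hOc
        refine ⟨?_, ?_, ?_⟩
        · apply nim_inner c hc
          rw [← XNIM_eq]
          by_contra hne
          have := hN c (by simpa using hne)
          rw [hOc] at this
          exact Bool.false_ne_true this
        · by_contra hne
          have := hxO c (by rw [tb_lor, Bool.or_eq_true]; exact Or.inl (by simpa using hne))
          rw [hOc] at this
          exact Bool.false_ne_true this
        · by_contra hne
          have := hxO c (by rw [tb_lor, Bool.or_eq_true]; exact Or.inr (by simpa using hne))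
          rw [hOc] at this
          exact Bool.false_ne_true this
      obtain ⟨hpin, hpb, hpw⟩ := hfree p hp hOp
      obtain ⟨hqin, hqb, hqw⟩ := hfree q hq hOq
      -- as cells
      have hbO : b ⊆ dec off O := by
        rw [hb]
        exact Sub.dec ((sub_lor_left _ _).trans hxO) off
      have hcO : ∀ c, c < 1024 → O.testBit c = false → cellOf off c ∉ dec off O := by
        intro c hc hOc
        rw [cellOf_mem_dec hc, hOc]; simp
      have hpO' := hcO p hp hOp
      have hqO' := hcO q hq hOq
      have hPQ : cellOf off p ≠ cellOf off q := fun he => hpq (cellOf_inj hp hq he)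
      have hpb' : cellOf off p ∉ b := fun hm => hpO' (hbO hm)
      have hqb' : cellOf off q ∉ b := fun hm => hqO' (hbO hm)
      have hpw' : cellOf off p ∉ w := fun hm => hpO' (hwO hm)
      have hqw' : cellOf off q ∉ w := fun hm => hqO' (hwO hm)
      have hpK : cellOf off p ∉ K := fun hm => hpO' (hKO hm)
      have hqK : cellOf off q ∉ K := fun hm => hqO' (hKO hm)
      -- the general step
      have hstep : ∀ (c e : ℕ), c < 1024 → e < 1024 → Inner c → Inner e →
          x.b.testBit c = false → x.w.testBit c = false →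
          x.b.testBit e = false → x.w.testBit e = false → c ≠ e →
          cellOf off c ∉ w → cellOf off e ∉ w → cellOf off c ∉ b → cellOf off e ∉ b →
          cellOf off e ∉ K →
          Sub (Nat.shiftLeft 1 c) (Nat.lor (Nat.shiftLeft 1 p) (Nat.shiftLeft 1 q)) →
          Sub (Nat.shiftLeft 1 e) (Nat.lor (Nat.shiftLeft 1 p) (Nat.shiftLeft 1 q)) →
          ∃ x' : St, RepA off x' (Nat.lor
              (Nat.xor (Nat.lor A (Nat.shiftLeft XT5 c)) (Nat.shiftLeft XT5 c))
              (Nat.shiftLeft (Nat.land
                (Nat.xor (Nat.lor A (Nat.shiftLeft XT5 c)) (Nat.shiftLeft XT5 c))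
                (Nat.shiftLeft XT4 e)) 4096)) ∧
            Sub (Nat.lor x'.b x'.w)
              (Nat.lor O (Nat.lor (Nat.shiftLeft 1 p) (Nat.shiftLeft 1 q))) ∧
            insert (cellOf off c) b = dec off x'.b ∧
            insert (cellOf off e) w \ W ⊆ dec off x'.w ∧
            insert (cellOf off e) w ⊆
              dec off (Nat.lor O (Nat.lor (Nat.shiftLeft 1 p) (Nat.shiftLeft 1 q))) ∧
            B ⊆ insert (cellOf off c) b ∧
            Disjoint (insert (cellOf off c) b) (insert (cellOf off e) w) ∧
            Disjoint (insert (cellOf off e) w \ W) K := by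
        intro c e hc he hcin hein hcb hcw heb hew hce hcw' hew' hcb' heb' heK hsc hse
        have hf1 : isFree x c = true := isFree_of hcin hcb hcw
        have hB1 := hRep.addB hc hf1
        have hf2 : isFree (x.addB c) e = true := by
          refine isFree_of hein ?_ hew
          show (Nat.lor x.b (Nat.shiftLeft 1 c)).testBit e = false
          rw [tb_lor, tb_bit, heb]
          simp [hce]
        have hW1 := hB1.addW he hf2
        refine ⟨(x.addB c).addW e, hW1.repA, ?_, ?_, ?_, ?_, ?_, ?_, ?_⟩
        · show Sub (Nat.lor (Nat.lor x.b (Nat.shiftLeft 1 c)) (Nat.lor x.w (Nat.shiftLeft 1 e))) _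
          refine Sub.lor (Sub.lor ?_ ?_) (Sub.lor ?_ ?_)
          · exact ((sub_lor_left _ _).trans hxO).trans (sub_lor_left _ _)
          · exact hsc.trans (sub_lor_right _ _)
          · exact ((sub_lor_right _ _).trans hxO).trans (sub_lor_left _ _)
          · exact hse.trans (sub_lor_right _ _)
        · show _ = dec off (Nat.lor x.b (Nat.shiftLeft 1 c))
          rw [dec_insert hc, hb]
        · show _ ⊆ dec off (Nat.lor x.w (Nat.shiftLeft 1 e))
          rw [dec_insert he]
          intro z hz
          rw [Finset.mem_sdiff, Finset.mem_insert] at hz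
          rw [Finset.mem_insert]
          rcases hz.1 with hz1 | hz1
          · exact Or.inl hz1
          · exact Or.inr (hw (Finset.mem_sdiff.2 ⟨hz1, hz.2⟩))
        · rw [Finset.insert_subset_iff]
          constructor
          · rw [cellOf_mem_dec he, tb_lor]
            have := hse.bit
            rw [this]; simp
          · exact hwO.trans (Sub.dec (sub_lor_left _ _) off)
        · exact hB.trans (Finset.subset_insert _ _)
        · rw [Finset.disjoint_insert_left, Finset.disjoint_insert_right, Finset.mem_insert]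
          refine ⟨?_, heb', hbw⟩
          rintro (hm | hm)
          · exact hce (cellOf_inj hc he hm)
          · exact hcw' hm
        · rw [Finset.disjoint_left]
          intro z hz hzK
          rw [Finset.mem_sdiff, Finset.mem_insert] at hz
          rcases hz.1 with rfl | hz1
          · exact heK hzK
          · exact Finset.disjoint_left.1 hwK (Finset.mem_sdiff.2 ⟨hz1, hz.2⟩) hzK
      have hKO' : K ⊆ dec off (Nat.lor O (Nat.lor (Nat.shiftLeft 1 p) (Nat.shiftLeft 1 q))) :=
        hKO.trans (Sub.dec (sub_lor_left _ _) off)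
      have hN' : Sub XNIM (Nat.lor O (Nat.lor (Nat.shiftLeft 1 p) (Nat.shiftLeft 1 q))) :=
        hN.trans (sub_lor_left _ _)
      obtain ⟨x1, a1, a2, a3, a4, a5, a6, a7, a8⟩ := hstep q p hq hp hqin hpin hqb hqw hpb hpw
        (Ne.symm hpq) hqw' hpw' hqb' hpb' hpK (sub_lor_right _ _) (sub_lor_left _ _)
      obtain ⟨N1, E1, Q1, P1, e1, e2, e3, e4, e5⟩ := ih h a1 a2 hN' a3 a4 a5 hKO' a6 a7 a8
      obtain ⟨x2, b1, b2, b3, b4, b5, b6, b7, b8⟩ := hstep p q hp hq hpin hqin hpb hpw hqb hqw
        hpq hpw' hqw' hpb' hqb' hqK (sub_lor_left _ _) (sub_lor_right _ _)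
      obtain ⟨N2, E2, Q2, P2, f1, f2, f3, f4, f5⟩ := ih e1 b1 b2 hN' b3 b4 b5 hKO' b6 b7 b8
      -- windows that do not contain both cells
      have hVbit : ∀ k, VM.testBit k = true →
          ¬ (cellOf off p ∈ winK off k ∧ cellOf off q ∈ winK off k) →
          (C1.testBit k = true → x.a2.testBit k = false) ∧ x.a3.testBit k = false := by
        intro k hk hn
        rw [hRep.a2, hRep.a3]
        refine yV_bit (VM_lt hk) ?_
        rw [← hV]
        have h5 : (minus V (Nat.shiftRight (Nat.land (Nat.shiftLeft XT5 p)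
            (Nat.shiftLeft XT5 q)) 132)).testBit k = false := by
          unfold minus
          rw [h2]; exact Nat.zero_testBit k
        rw [tb_minus, yBoth_bit hpin hqin (VM_lt hk)] at h5
        by_contra hne
        have hVk : V.testBit k = true := by simpa using hne
        rw [hVk] at h5
        simp only [Bool.true_and, Bool.not_eq_false', Bool.and_eq_true] at h5
        exact hn ⟨(testBit_WT hpin hk).1 h5.1, (testBit_WT hqin hk).1 h5.2⟩
      have hcap : CapOKP (capV off true C1) (w \ W) b (cellOf off p) (cellOf off q) := by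
        intro L hL hd hn
        rw [hb] at hd
        exact cap_ok hI hL hd hw
          (fun k hk hLk hC => (hVbit k hk (by rw [← hLk]; exact hn)).1 hC)
          fun k hk hLk => (hVbit k hk (by rw [← hLk]; exact hn)).2
      refine ⟨N2, E2, Q2, PT.pair (cellOf off p) (cellOf off q) P1 P2, f1,
        ((sub_lor_left _ _).trans e2).trans f2, ((sub_lor_left _ _).trans e3).trans f3,
        ⟨⟨hPQ, hpK, hqK, hpw', hqw', hpb', hqb'⟩, ⟨hB, hbw, hwK⟩, hcap, e4, f4⟩, ?_⟩
      intro y hyb hyw hyK hyQ hyE
      have hQ2 : Sub (Nat.lor (Nat.shiftLeft 1 p) (Nat.shiftLeft 1 q)) Q2 :=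
        ((sub_lor_right _ _).trans e3).trans f3
      have hyp : y ≠ cellOf off p := by
        rintro rfl
        exact hyQ ((cellOf_mem_dec hp).2 (((sub_lor_left _ _).trans hQ2).bit))
      have hyq : y ≠ cellOf off q := by
        rintro rfl
        exact hyQ ((cellOf_mem_dec hq).2 (((sub_lor_right _ _).trans hQ2).bit))
      have hyQ1 : y ∉ dec off Q1 := fun hm => hyQ (Sub.dec f3 off hm)
      have hyE1 : y ∉ dec off (xCells E1) := by
        intro hm
        apply hyE
        have em : ∀ {u v : ℕ}, Sub u v → Sub (xCells u) (xCells v) := by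
          intro u v huv
          have ex : ∀ {s t a1 a2 a4 : ℕ}, Sub s t →
              Sub (xExpand s a1 a2 a4) (xExpand t a1 a2 a4) := by
            intro s t a1 a2 a4 hst
            unfold xExpand
            refine Sub.lor (Sub.lor ?_ ?_) ?_
            · exact (Sub.lor (hst.trans (sub_lor_left _ _))
                ((hst.xshl _).trans (sub_lor_right _ _))).trans
                ((sub_lor_left _ _).trans (sub_lor_left _ _))
            · refine (Sub.xshl (Sub.lor (hst.trans (sub_lor_left _ _))
                ((hst.xshl _).trans (sub_lor_right _ _))) _).trans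
                ((sub_lor_right _ _).trans (sub_lor_left _ _))
            · exact (hst.xshl _).trans (sub_lor_right _ _)
          have sl : ∀ {s t u : ℕ}, Sub s t → Sub (Nat.land s u) (Nat.land t u) := by
            intro s t u hst i hi
            rw [tb_land, Bool.and_eq_true] at hi ⊢
            exact ⟨hst i hi.1, hi.2⟩
          have sr : ∀ {s t n : ℕ}, Sub s t → Sub (Nat.shiftRight s n) (Nat.shiftRight t n) := by
            intro s t n hst i hi
            rw [tb_xshr] at hi ⊢
            exact hst _ hi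
          unfold xCells
          refine Sub.lor (Sub.lor ?_ ?_) (Sub.lor ?_ ?_)
          · exact (ex (sl huv)).trans ((sub_lor_left _ _).trans (sub_lor_left _ _))
          · exact (ex (sl (sr huv))).trans ((sub_lor_right _ _).trans (sub_lor_left _ _))
          · exact (ex (sl (sr huv))).trans ((sub_lor_left _ _).trans (sub_lor_right _ _))
          · exact (ex (sl (sr huv))).trans ((sub_lor_right _ _).trans (sub_lor_right _ _))
        exact Sub.dec (em f2) off hm
      obtain ⟨g1, g2, g3⟩ := hbasic y hyb hyK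
      refine ⟨⟨hPQ, hpK, hqK, ?_, ?_, hpb', hqb'⟩, ⟨g1, g2, g3⟩, ?_, ?_, ?_⟩
      · rw [Finset.mem_insert]
        rintro (hm | hm)
        · exact hyp hm.symm
        · exact hpw' hm
      · rw [Finset.mem_insert]
        rintro (hm | hm)
        · exact hyq hm.symm
        · exact hqw' hm
      · intro L hL hd hn
        by_cases hyL : y ∈ L
        · have hEbit : ∀ k, VM.testBit k = true → L = winK off k →
              (C1.testBit k = true → x.a1.testBit k = false) ∧ x.a2.testBit k = false := by
            intro k hk hLk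
            have h5 := not_bit_of_cells hk (by rw [← hLk]; exact hyL) hyE1
            have h6 : (minus E0 (Nat.shiftRight (Nat.land (Nat.shiftLeft XT5 p)
                (Nat.shiftLeft XT5 q)) 132)).testBit k = false := by
              by_contra hne
              have h7 := e2 k (by
                rw [tb_lor, Bool.or_eq_true]
                exact Or.inr (Bool.eq_true_of_not_eq_false hne))
              rw [h5] at h7
              exact Bool.false_ne_true h7
            rw [hRep.a1, hRep.a2]
            refine yE_bit (VM_lt hk) ?_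
            rw [← hE0]
            rw [tb_minus, yBoth_bit hpin hqin (VM_lt hk)] at h6
            by_contra hne
            have hEk : E0.testBit k = true := by simpa using hne
            rw [hEk] at h6
            simp only [Bool.true_and, Bool.not_eq_false', Bool.and_eq_true] at h6
            apply hn
            rw [hLk]
            exact ⟨(testBit_WT hpin hk).1 h6.1, (testBit_WT hqin hk).1 h6.2⟩
          refine card_insert_inter_le.trans ?_
          rw [hb] at hd
          exact cap_ok_succ hI hL hd hw (fun k hk hLk hC => (hEbit k hk hLk).1 hC)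
            fun k hk hLk => (hEbit k hk hLk).2
        · rw [inter_insert_eq hyL]
          exact hcap L hL hd hn
      · rw [Finset.insert_comm]
        refine e5 y ?_ ?_ hyK hyQ1 hyE1
        · rw [Finset.mem_insert]
          rintro (hm | hm)
          · exact hyq hm
          · exact hyb hm
        · rw [Finset.mem_insert]
          rintro (hm | hm)
          · exact hyp hm
          · exact hyw hm
      · rw [Finset.insert_comm]
        refine f5 y ?_ ?_ hyK hyQ hyE
        · rw [Finset.mem_insert]
          rintro (hm | hm)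
          · exact hyp hm
          · exact hyb hm
        · rw [Finset.mem_insert]
          rintro (hm | hm)
          · exact hyq hm
          · exact hyw hm


theorem not_mem_xCells_of_xCells0 {off : Cell} {E : ℕ} {y : Cell} (h : y ∉ dec off (xCells0 E)) :
    y ∉ dec off (xCells E) := by
  unfold xCells0 at h
  cases hb : Nat.beq E 0
  · rw [hb] at h
    exact h
  · have hE := eq_of_beq hb
    subst hE
    have h0 : xCells 0 = 0 := by decide +kernel
    rw [h0, dec_zero]
    exact Finset.notMem_empty y

theorem yFit_spec {off : Cell} {s : St} {b F A B W K C1 N N' K' G' : ℕ} {k : ℕ → ℕ → ℕ → RX}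
    (hR : Rep off s b F A) (h : yFit b F s.w A B W K C1 N k = RX.ok N' K' G') :
    ∃ N1 E Q P, k N1 E Q = RX.ok N' K' G' ∧
      Ctx3 (dec off B) (dec off W) (dec off K) (capV off true C1) P (dec off s.b) (dec off s.w) ∧
      ∀ y, y ∉ dec off s.b → y ∉ dec off s.w → y ∉ dec off K → y ∉ dec off Q →
        y ∉ dec off (xCells0 E) →
        Ctx3 (dec off B) (dec off W) (dec off K) (capV off true C1) P (dec off s.b)
          (insert y (dec off s.w)) := by
  unfold yFit at h
  simp only at h
  set R := Nat.land s.w W with hRdef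
  obtain ⟨hchk, h⟩ := rec_bad h
  have hchk := eq_of_beq hchk
  obtain ⟨hBb, hwK⟩ := lor_eq_zero hchk
  have hBb := sub_of_xor hBb
  have hB : dec off B ⊆ dec off s.b := by
    intro c hc
    obtain ⟨i, hi, hBi, rfl⟩ := mem_dec.1 hc
    have h1 := hBb i hBi
    rw [hR.b, tb_lor, XHI_low i (by omega), Bool.false_or] at h1
    exact (cellOf_mem_dec hi).2 h1
  have hxR : ∀ i, (Nat.xor s.w R).testBit i = (s.w.testBit i && !W.testBit i) := by
    intro i
    rw [hRdef, tb_xor, tb_land]
    cases s.w.testBit i <;> cases W.testBit i <;> rfl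
  have hsub : dec off s.w \ dec off W ⊆ dec off (Nat.xor s.w R) := by
    intro c hc
    rw [Finset.mem_sdiff] at hc
    obtain ⟨i, hi, hwi, rfl⟩ := mem_dec.1 hc.1
    rw [cellOf_mem_dec hi, hxR, hwi]
    have : W.testBit i = false := by
      have h2 := hc.2
      rw [cellOf_mem_dec hi] at h2
      simpa using h2
    rw [this]
    rfl
  have hwK' : Disjoint (dec off s.w \ dec off W) (dec off K) :=
    Finset.disjoint_of_subset_left hsub (disj_of_land_zero hwK)
  have hbw : Disjoint (dec off s.b) (dec off s.w) := hR.inv.disj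
  have hFO : Sub (Nat.lor s.b s.w) (Nat.lor F K) := by
    rw [hR.F]
    exact (sub_lor_left _ _).trans (sub_lor_left _ _)
  have hN : Sub XNIM (Nat.lor F K) := by
    rw [hR.F]
    exact (sub_lor_right _ _).trans (sub_lor_left _ _)
  have hwO : dec off s.w ⊆ dec off (Nat.lor F K) :=
    Sub.dec ((sub_lor_right _ _).trans hFO) off
  have hKO : dec off K ⊆ dec off (Nat.lor F K) := Sub.dec (sub_lor_right _ _) off
  have key : ∀ (N0 A1 : ℕ) (x1 : St), RepA off x1 A1 → x1.b = s.b → Sub x1.w s.w →
      (∀ i, (Nat.xor s.w R).testBit i = true → x1.w.testBit i = true) →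
      yT C1 4 N0 A1 (Nat.lor F K) 0 0 k = RX.ok N' K' G' →
      ∃ N1 E Q P, k N1 E Q = RX.ok N' K' G' ∧
        Ctx3 (dec off B) (dec off W) (dec off K) (capV off true C1) P (dec off s.b) (dec off s.w) ∧
        ∀ y, y ∉ dec off s.b → y ∉ dec off s.w → y ∉ dec off K → y ∉ dec off Q →
          y ∉ dec off (xCells0 E) →
          Ctx3 (dec off B) (dec off W) (dec off K) (capV off true C1) P (dec off s.b)
            (insert y (dec off s.w)) := by
    intro N0 A1 x1 hx1 hb1 hw1 hw2 hT
    have hxO : Sub (Nat.lor x1.b x1.w) (Nat.lor F K) := by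
      refine Sub.trans ?_ hFO
      intro i hi
      rw [tb_lor, Bool.or_eq_true] at hi ⊢
      rcases hi with hi | hi
      · rw [hb1] at hi; exact Or.inl hi
      · exact Or.inr (hw1 i hi)
    have hw3 : dec off s.w \ dec off W ⊆ dec off x1.w :=
      hsub.trans (Sub.dec (fun i hi => hw2 i hi) off)
    obtain ⟨N1, E1, Q1, P, h1, _, _, h2, h3⟩ := yT_spec 4 hT hx1 hxO hN (by rw [hb1]) hw3 hwO hKO
      hB hbw hwK'
    exact ⟨N1, E1, Q1, P, h1, h2, fun y y1 y2 y3 y4 y5 =>
      h3 y y1 y2 y3 y4 (not_mem_xCells_of_xCells0 y5)⟩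
  by_cases h15 : Nat.mod N 16 = 15
  · have hb15 : Nat.beq (Nat.mod N 16) 15 = true := by rw [h15]; rfl
    rw [hb15] at h
    simp only at h
    obtain ⟨N1, A1, Z1, h1, h2⟩ := yAdd_spec (off := off) _ h
    obtain ⟨hZ, g1⟩ := rec_bad h1
    obtain ⟨_, h3⟩ := h2 (eq_of_beq hZ)
    obtain ⟨x1, g2, g3, g4⟩ := h3 (stripA s) (repA_strip hR.repA) (by
      intro i hi
      rw [hxR, Bool.and_eq_true] at hi
      have hin := hR.inv.wi i hi.1
      refine ⟨hin, ?_, Nat.zero_testBit i⟩
      show s.b.testBit i = false
      by_contra hne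
      have hb : s.b.testBit i = true := by simpa using hne
      exact Finset.disjoint_left.1 hbw ((cellOf_mem_dec (inner_lt hin)).2 hb)
        ((cellOf_mem_dec (inner_lt hin)).2 hi.1))
    have hw1 : x1.w = Nat.xor s.w R := by
      rw [g4]
      apply Nat.eq_of_testBit_eq
      intro i
      rw [tb_lor]
      show ((0 : ℕ).testBit i || _) = _
      rw [Nat.zero_testBit, Bool.false_or]
    refine key _ A1 x1 g2 g3 ?_ ?_ g1
    · intro i hi
      rw [hw1, hxR, Bool.and_eq_true] at hi
      exact hi.1
    · intro i hi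
      rw [hw1]; exact hi
  · have hb15 : Nat.beq (Nat.mod N 16) 15 = false := by
      cases hb : Nat.beq (Nat.mod N 16) 15
      · rfl
      · exact absurd (Nat.eq_of_beq_eq_true hb) h15
    rw [hb15] at h
    simp only at h
    obtain ⟨N1, A1, Z1, h1, h2⟩ := yRem_spec (off := off) _ h
    obtain ⟨hZ, h1⟩ := rec_bad h1
    obtain ⟨_, h3⟩ := h2 (eq_of_beq hZ)
    obtain ⟨x1, g1, g2, g3, g4⟩ := h3 s hR.repA (by
      intro i hi
      rw [hRdef, tb_land, Bool.and_eq_true] at hi
      exact hi.1)
    refine key _ A1 x1 g1 g2 g3 ?_ h1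
    intro i hi
    rw [hxR, Bool.and_eq_true, Bool.not_eq_true'] at hi
    apply g4 i hi.1
    rw [hRdef, tb_land, hi.2, Bool.and_false]

end Pool.Agent.Gomoku
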